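import Pool.Agent.Helper14.RG.Cls.Norm
import Pool.Agent.Helper14.RG.General

namespace Pool.Agent.Helper14.RG

open Matrix MvPolynomial

section

variable {k : Type*} [Field k] {m n : ℕ}

lemma mem_center_equiv {S : Type*} [Group S] (τ : S ≃* S) (x : S) :
    τ x ∈ Subgroup.center S ↔ x ∈ Subgroup.center S := by
  constructor
  · intro h
    have := map_center τ.symm h
    rwa [MulEquiv.symm_apply_apply] at this
  · exact map_center τ

lemma PH.comp {φ : Matrix.SpecialLinearGroup (Fin m) k → Matrix.SpecialLinearGroup (Fin n) k}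
    (h : PH φ) (τ : Matrix.SpecialLinearGroup (Fin n) k ≃* Matrix.SpecialLinearGroup (Fin n) k) :
    PH (fun x => τ (φ x)) where
  mul := by
    intro x y
    obtain ⟨z, hz, e⟩ := h.mul x y
    exact ⟨τ z, map_center τ hz, by show τ (φ (x * y)) = _; rw [e, map_mul, map_mul]⟩
  cen := by
    intro x
    rw [← h.cen x]
    exact mem_center_equiv τ (φ x)

lemma isStd_invT : IsStd (invT : Matrix.SpecialLinearGroup (Fin n) k ≃* _) :=
  ⟨1, by rw [Matrix.det_one]; exact one_ne_zero, Or.inr fun g => by rw [mul_one, invT_rel]⟩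

lemma isStd_inner (c : Matrix (Fin n) (Fin n) k) (hc : c.det ≠ 0) : IsStd (innerStd c hc) :=
  ⟨c, hc, Or.inl (innerStd_rel c hc)⟩

lemma cls_step [IsAlgClosed k] [CharZero k]
    {φ : Matrix.SpecialLinearGroup (Fin n) k → Matrix.SpecialLinearGroup (Fin n) k}
    (h : PH φ) (τ : Matrix.SpecialLinearGroup (Fin n) k ≃* Matrix.SpecialLinearGroup (Fin n) k)
    (hτ : IsStd τ) (hN : ∀ u : Fin n → k, ∏ i, u i ≠ 0 →
      ∃ r : k, (τ (φ (th u)) : Matrix (Fin n) (Fin n) k) = r • (th u : Matrix (Fin n) (Fin n) k)) :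
    ∃ T : Matrix.SpecialLinearGroup (Fin n) k ≃* Matrix.SpecialLinearGroup (Fin n) k, IsStd T ∧
      ∀ x, ∃ z ∈ Subgroup.center (Matrix.SpecialLinearGroup (Fin n) k), φ x = z * T x := by
  obtain ⟨a, ha, ha2⟩ := norm_main (h.comp τ) (fun u hu => by
    obtain ⟨r, hr⟩ := hN u hu
    exact exists_center_mul hr)
  refine ⟨(innerStd a ha).trans τ.symm, hτ.symm.trans (isStd_inner a ha), fun x => ?_⟩
  obtain ⟨z, hz, e⟩ := ha2 x
  refine ⟨τ.symm z⁻¹, map_center τ.symm (inv_mem hz), ?_⟩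
  have h1 : z * τ (φ x) = innerStd a ha x := by
    apply Subtype.ext
    apply cancel_right ha
    rw [innerStd_rel]
    exact e
  show φ x = τ.symm z⁻¹ * τ.symm (innerStd a ha x)
  rw [← h1, ← map_mul, inv_mul_cancel_left, MulEquiv.symm_apply_apply]

theorem cls_aux [IsAlgClosed k] [CharZero k] (hn2 : 2 ≤ n)
    {φ : Matrix.SpecialLinearGroup (Fin n) k → Matrix.SpecialLinearGroup (Fin n) k}
    (h : ProjHom φ) :
    ∃ T : Matrix.SpecialLinearGroup (Fin n) k ≃* Matrix.SpecialLinearGroup (Fin n) k, IsStd T ∧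
      ∀ x, ∃ z ∈ Subgroup.center (Matrix.SpecialLinearGroup (Fin n) k), φ x = z * T x := by
  obtain ⟨ε, c, hc, hr⟩ := torus_main h hn2
  have hcu : IsUnit c.det := isUnit_iff_ne_zero.mpr hc
  -- the conjugate of the image of the torus
  have hy : ∀ u : Fin n → k, ∏ i, u i ≠ 0 → ∃ r : k,
      (innerStd c hc (φ (th u)) : Matrix (Fin n) (Fin n) k)
        = r • diagonal (fun i => if ε then (u i ^ n / ∏ j, u j)⁻¹ else u i ^ n / ∏ j, u j) := by
    intro u hu
    obtain ⟨r, e⟩ := hr u hu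
    refine ⟨r, ?_⟩
    apply cancel_right hc
    rw [innerStd_rel, e, Matrix.smul_mul]
  cases ε
  · refine cls_step h.toPH (innerStd c hc) (isStd_inner c hc) (fun u hu => ?_)
    obtain ⟨r, e⟩ := hy u hu
    refine ⟨r, ?_⟩
    rw [e, th_coe u hu]
    simp
  · refine cls_step h.toPH ((innerStd c hc).trans invT) (isStd_invT.trans (isStd_inner c hc))
      (fun u hu => ?_)
    obtain ⟨r, e⟩ := hy u hu
    have hui := prod_ne_iff.mp hu
    have hr0 : r ≠ 0 := by
      rintro rfl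
      have h1 := (innerStd c hc (φ (th u))).2
      have h2 : (innerStd c hc (φ (th u)) : Matrix (Fin n) (Fin n) k).det = 0 := by
        have : Nonempty (Fin n) := ⟨⟨0, by omega⟩⟩
        rw [e, zero_smul]; exact Matrix.det_zero
      exact zero_ne_one (h2.symm.trans h1)
    refine ⟨r⁻¹, ?_⟩
    show (invT (innerStd c hc (φ (th u))) : Matrix (Fin n) (Fin n) k) = _
    have h1 := invT_rel (innerStd c hc (φ (th u)))
    rw [e, Matrix.transpose_smul, Matrix.diagonal_transpose] at h1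
    have h2 : (r • diagonal (fun i => if true = true then (u i ^ n / ∏ j, u j)⁻¹
        else u i ^ n / ∏ j, u j)) * (r⁻¹ • (th u : Matrix (Fin n) (Fin n) k)) = 1 := by
      rw [Matrix.smul_mul, Matrix.mul_smul, smul_smul, mul_inv_cancel₀ hr0, one_smul, th_coe u hu,
        Matrix.diagonal_mul_diagonal, ← Matrix.diagonal_one]
      congr 1
      funext i
      rw [if_pos rfl]
      exact inv_mul_cancel₀ (div_ne_zero (pow_ne_zero _ (hui i)) hu)
    calc (invT (innerStd c hc (φ (th u))) : Matrix (Fin n) (Fin n) k)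
        = (invT (innerStd c hc (φ (th u))) : Matrix (Fin n) (Fin n) k)
          * ((r • diagonal (fun i => if true = true then (u i ^ n / ∏ j, u j)⁻¹
            else u i ^ n / ∏ j, u j)) * (r⁻¹ • (th u : Matrix (Fin n) (Fin n) k))) := by
          rw [h2, mul_one]
      _ = _ := by rw [← mul_assoc, h1, one_mul]

theorem cls [IsAlgClosed k] [CharZero k] (hn2 : 2 ≤ n) (hmn : m = n)
    {φ : Matrix.SpecialLinearGroup (Fin m) k → Matrix.SpecialLinearGroup (Fin n) k}
    (h : ProjHom φ) :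
    ∃ (ε : Bool) (a : Matrix (Fin n) (Fin m) k) (b : Matrix (Fin m) (Fin n) k), a * b = 1 ∧
      b * a = 1 ∧ ∀ x : Matrix.SpecialLinearGroup (Fin m) k,
        ∃ z ∈ Subgroup.center (Matrix.SpecialLinearGroup (Fin n) k),
        StdRel ε a ((z * φ x : Matrix.SpecialLinearGroup (Fin n) k) : Matrix (Fin n) (Fin n) k)
          (x : Matrix (Fin m) (Fin m) k) := by
  subst hmn
  obtain ⟨T, ⟨a, ha, hT⟩, hx⟩ := cls_aux hn2 h
  have hau : IsUnit a.det := isUnit_iff_ne_zero.mpr ha
  have key : ∀ x, ∃ z ∈ Subgroup.center (Matrix.SpecialLinearGroup (Fin m) k), z * φ x = T x := by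
    intro x
    obtain ⟨z, hz, e⟩ := hx x
    exact ⟨z⁻¹, inv_mem hz, by rw [e, inv_mul_cancel_left]⟩
  rcases hT with hT | hT
  · refine ⟨false, a, a⁻¹, Matrix.mul_nonsing_inv _ hau, Matrix.nonsing_inv_mul _ hau, fun x => ?_⟩
    obtain ⟨z, hz, e⟩ := key x
    refine ⟨z, hz, ?_⟩
    rw [e]
    exact hT x
  · refine ⟨true, a, a⁻¹, Matrix.mul_nonsing_inv _ hau, Matrix.nonsing_inv_mul _ hau, fun x => ?_⟩
    obtain ⟨z, hz, e⟩ := key x
    refine ⟨z, hz, ?_⟩
    rw [e]
    exact hT x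

end

end Pool.Agent.Helper14.RG
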