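import Mathlib

namespace Pool.Agent.Helper14.RG

section

variable {m : ℕ}

lemma update_swap (i0 i : Fin m) (a b : ℤ) :
    (Function.update (fun _ : Fin m => b) i0 a) ∘ (Equiv.swap i0 i)
      = Function.update (fun _ : Fin m => b) i a := by
  funext j
  show Function.update (fun _ : Fin m => b) i0 a (Equiv.swap i0 i j) = _
  by_cases hj : j = i
  · subst hj
    rw [Equiv.swap_apply_right, Function.update_self, Function.update_self]
  · by_cases hj0 : j = i0
    · subst hj0
      rw [Equiv.swap_apply_left, Function.update_of_ne hj, Function.update_of_ne (Ne.symm hj)]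
    · rw [Equiv.swap_apply_of_ne_of_ne hj0 hj, Function.update_of_ne hj0, Function.update_of_ne hj]

lemma update_inj {a b : ℤ} (hab : a ≠ b) {i j : Fin m}
    (h : Function.update (fun _ : Fin m => b) i a = Function.update (fun _ : Fin m => b) j a) :
    i = j := by
  by_contra hne
  have h1 := congrFun h i
  rw [Function.update_self, Function.update_of_ne hne] at h1
  exact hab h1

lemma card_ge_of_update (O : Finset (Fin m → ℤ)) (hO : ∀ v ∈ O, ∀ s : Equiv.Perm (Fin m), v ∘ s ∈ O)
    {a b : ℤ} (hab : a ≠ b) (i0 : Fin m) (hw : Function.update (fun _ : Fin m => b) i0 a ∈ O) :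
    m ≤ O.card := by
  have h1 : (Finset.univ.image (fun i : Fin m => Function.update (fun _ : Fin m => b) i a)) ⊆ O := by
    intro v hv
    obtain ⟨i, -, rfl⟩ := Finset.mem_image.mp hv
    rw [← update_swap i0 i a b]
    exact hO _ hw _
  have h2 := Finset.card_le_card h1
  rw [Finset.card_image_of_injective _ (fun i j h => update_inj hab h)] at h2
  simpa using h2

lemma swap_inj (w : Fin m → ℤ) {i j i' j' : Fin m} (h : w i < w j) (h' : w i' < w j')
    (he : w ∘ (Equiv.swap i j) = w ∘ (Equiv.swap i' j')) : i = i' ∧ j = j' := by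
  have hi := congrFun he i
  simp only [Function.comp_apply, Equiv.swap_apply_left] at hi
  have hj := congrFun he j
  simp only [Function.comp_apply, Equiv.swap_apply_right] at hj
  have hii : i = i' := by
    by_contra hne
    by_cases hij' : i = j'
    · rw [hij', Equiv.swap_apply_right] at hi
      rw [hij'] at h
      omega
    · rw [Equiv.swap_apply_of_ne_of_ne hne hij'] at hi
      omega
  subst hii
  refine ⟨rfl, ?_⟩
  by_contra hne
  have hji : j ≠ i := by rintro rfl; exact lt_irrefl _ h
  rw [Equiv.swap_apply_of_ne_of_ne hji hne] at hj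
  omega

theorem orbit_comb (O : Finset (Fin m → ℤ)) (hO : ∀ v ∈ O, ∀ s : Equiv.Perm (Fin m), v ∘ s ∈ O)
    (w : Fin m → ℤ) (hw : w ∈ O) (hnc : ∃ i j, w i ≠ w j) :
    m ≤ O.card ∧ (O.card ≤ m → ∃ a b, a ≠ b ∧ ∃ i0, w = Function.update (fun _ : Fin m => b) i0 a) := by
  classical
  let P : Finset (Fin m × Fin m) := Finset.univ.filter (fun p => w p.1 < w p.2)
  have hP : P.card + 1 ≤ O.card := by
    have h1 : insert w (P.image (fun p => w ∘ (Equiv.swap p.1 p.2))) ⊆ O := by
      intro v hv
      rcases Finset.mem_insert.mp hv with h | h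
      · rw [h]; exact hw
      · obtain ⟨p, -, rfl⟩ := Finset.mem_image.mp h
        exact hO w hw _
    have h2 := Finset.card_le_card h1
    rw [Finset.card_insert_of_notMem, Finset.card_image_of_injOn] at h2
    · exact h2
    · rintro ⟨i, j⟩ hp ⟨i', j'⟩ hp' he
      have e1 : w i < w j := (Finset.mem_filter.mp hp).2
      have e2 : w i' < w j' := (Finset.mem_filter.mp hp').2
      obtain ⟨e3, e4⟩ := swap_inj w e1 e2 he
      rw [e3, e4]
    · intro hmem
      obtain ⟨⟨i, j⟩, hp, he⟩ := Finset.mem_image.mp hmem
      have e1 : w i < w j := (Finset.mem_filter.mp hp).2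
      have e2 := congrFun he i
      simp only [Function.comp_apply, Equiv.swap_apply_left] at e2
      omega
  let dg : Fin m → ℕ := fun i => (Finset.univ.filter (fun j => w i ≠ w j)).card
  have hsum : ∑ i, dg i = 2 * P.card := by
    have h1 : ∑ i, dg i = (Finset.univ.filter (fun p : Fin m × Fin m => w p.1 ≠ w p.2)).card := by
      rw [Finset.card_filter, Fintype.sum_prod_type]
      refine Finset.sum_congr rfl fun i _ => ?_
      show (Finset.univ.filter (fun j => w i ≠ w j)).card = _
      rw [Finset.card_filter]
    have h2 : (Finset.univ.filter (fun p : Fin m × Fin m => w p.1 ≠ w p.2))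
        = P ∪ (Finset.univ.filter (fun p : Fin m × Fin m => w p.2 < w p.1)) := by
      ext p
      simp only [P, Finset.mem_filter, Finset.mem_union, Finset.mem_univ, true_and]
      exact ne_iff_lt_or_gt
    have h3 : Disjoint P (Finset.univ.filter (fun p : Fin m × Fin m => w p.2 < w p.1)) := by
      rw [Finset.disjoint_left]
      intro p hp hp'
      simp only [P, Finset.mem_filter, Finset.mem_univ, true_and] at hp hp'
      omega
    have h4 : (Finset.univ.filter (fun p : Fin m × Fin m => w p.2 < w p.1)).card = P.card := by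
      refine Finset.card_nbij' (fun p => (p.2, p.1)) (fun p => (p.2, p.1)) ?_ ?_ ?_ ?_
      · intro p hp
        simpa [P] using hp
      · intro p hp
        simpa [P] using hp
      · intro p _; rfl
      · intro p _; rfl
    rw [h1, h2, Finset.card_union_of_disjoint h3, h4]
    ring
  have hpos : ∀ i, 1 ≤ dg i := by
    intro i
    obtain ⟨a, b, hab⟩ := hnc
    apply Finset.card_pos.mpr
    by_cases ha : w i = w a
    · exact ⟨b, Finset.mem_filter.mpr ⟨Finset.mem_univ _, by rw [ha]; exact hab⟩⟩
    · exact ⟨a, Finset.mem_filter.mpr ⟨Finset.mem_univ _, ha⟩⟩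
  by_cases hall : ∀ i, 2 ≤ dg i
  · have h1 : 2 * m ≤ ∑ i, dg i := by
      calc 2 * m = ∑ _i : Fin m, 2 := by simp [mul_comm]
        _ ≤ ∑ i, dg i := Finset.sum_le_sum fun i _ => hall i
    rw [hsum] at h1
    exact ⟨by omega, fun h => by omega⟩
  · push Not at hall
    obtain ⟨i, hi⟩ := hall
    have h1 : dg i = 1 := le_antisymm (by omega) (hpos i)
    obtain ⟨j0, hj0⟩ := Finset.card_eq_one.mp h1
    have hform : w = Function.update (fun _ : Fin m => w i) j0 (w j0) := by
      funext j
      by_cases hj : j = j0
      · subst hj; rw [Function.update_self]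
      · rw [Function.update_of_ne hj]
        by_contra hne
        apply hj
        have : j ∈ (Finset.univ.filter (fun j => w i ≠ w j)) :=
          Finset.mem_filter.mpr ⟨Finset.mem_univ _, fun h => hne h.symm⟩
        rw [hj0] at this
        exact Finset.mem_singleton.mp this
    have hne : w j0 ≠ w i := by
      have : j0 ∈ (Finset.univ.filter (fun j => w i ≠ w j)) := by
        rw [hj0]; exact Finset.mem_singleton_self _
      exact fun h => (Finset.mem_filter.mp this).2 h.symm
    refine ⟨card_ge_of_update O hO hne j0 (by rw [← hform]; exact hw), fun _ =>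
      ⟨w j0, w i, hne, j0, hform⟩⟩

end

end Pool.Agent.Helper14.RG
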