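import Pool.Agent.Helper14.RG.Cls.Cls

namespace Pool.Agent.Helper14.RG

open Matrix MvPolynomial

section Gen

variable {k : Type*} [Field k] [CharZero k] {n : ℕ}

lemma center_of_comm (x : Matrix.SpecialLinearGroup (Fin n) k)
    (h : ∀ y, ∃ z ∈ Subgroup.center (Matrix.SpecialLinearGroup (Fin n) k), x * y = z * (y * x)) :
    x ∈ Subgroup.center (Matrix.SpecialLinearGroup (Fin n) k) := by
  obtain ⟨r, -, hr⟩ := scalar_of_conj (x : Matrix (Fin n) (Fin n) k)
    (by rw [x.2]; exact one_ne_zero) (fun y => by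
      obtain ⟨z, hz, e⟩ := h y
      refine ⟨z, hz, ?_⟩
      rw [← Matrix.SpecialLinearGroup.coe_mul, ← Matrix.SpecialLinearGroup.coe_mul, e, mul_assoc])
  exact mem_center_of_scalar hr

omit [CharZero k] in
lemma center_subsingleton (hn : n < 2) (x : Matrix.SpecialLinearGroup (Fin n) k) : x = 1 := by
  have : Subsingleton (Fin n) := by
    rw [Fin.subsingleton_iff_le_one]
    omega
  have := Matrix.SpecialLinearGroup.subsingleton_of_subsingleton (n := Fin n) (R := k)
  exact Subsingleton.elim _ _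

omit [CharZero k] in
lemma exists_noncentral (hn : 2 ≤ n) : ∃ x : Matrix.SpecialLinearGroup (Fin n) k,
    x ∉ Subgroup.center (Matrix.SpecialLinearGroup (Fin n) k) := by
  have hij : (⟨0, by omega⟩ : Fin n) ≠ ⟨1, by omega⟩ := by
    intro h
    have := congrArg Fin.val h
    simp at this
  refine ⟨SpecialLinearGroup.transvection hij 1, fun h => ?_⟩
  rw [SpecialLinearGroup.transvection_mem_center_iff] at h
  exact one_ne_zero h

end Gen

/-- A pair of maps of `∏ SL_{n i}` inducing mutually inverse automorphisms modulo the centre. -/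
structure Lift {k : Type*} [Field k] {ι : Type*} {n : ι → ℕ} (s s' : SC k n → SC k n) : Prop where
  mul : ∀ g h, ∃ z ∈ Subgroup.center (SC k n), s (g * h) = z * (s g * s h)
  mul' : ∀ g h, ∃ z ∈ Subgroup.center (SC k n), s' (g * h) = z * (s' g * s' h)
  cen : ∀ g, s g ∈ Subgroup.center (SC k n) ↔ g ∈ Subgroup.center (SC k n)
  cen' : ∀ g, s' g ∈ Subgroup.center (SC k n) ↔ g ∈ Subgroup.center (SC k n)
  inv : ∀ g, ∃ z ∈ Subgroup.center (SC k n), g = z * s (s' g)
  inv' : ∀ g, ∃ z ∈ Subgroup.center (SC k n), g = z * s' (s g)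

lemma Lift.symm {k : Type*} [Field k] {ι : Type*} {n : ι → ℕ} {s s' : SC k n → SC k n}
    (h : Lift s s') : Lift s' s :=
  ⟨h.mul', h.mul, h.cen', h.cen, h.inv', h.inv⟩

/-- the `i`-th component of `s g` only depends on the `j`-th component of `g`, modulo the centre -/
def Star {k : Type*} [Field k] {ι : Type*} {n : ι → ℕ} (s : SC k n → SC k n) (i j : ι) : Prop :=
  ∀ g, g j = 1 → s g i ∈ Subgroup.center (Matrix.SpecialLinearGroup (Fin (n i)) k)

section Fac

variable {k : Type*} [Field k] {ι : Type*} {n : ι → ℕ} {s s' : SC k n → SC k n}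

lemma center_pi_of {z : SC k n}
    (h : ∀ i, z i ∈ Subgroup.center (Matrix.SpecialLinearGroup (Fin (n i)) k)) :
    z ∈ Subgroup.center (SC k n) := by
  rw [Subgroup.mem_center_iff]
  intro g
  funext i
  exact Subgroup.mem_center_iff.mp (h i) (g i)

variable [DecidableEq ι]

lemma Lift.mul_i (h : Lift s s') (i : ι) (g g' : SC k n) :
    ∃ z ∈ Subgroup.center (Matrix.SpecialLinearGroup (Fin (n i)) k),
      s (g * g') i = z * (s g i * s g' i) := by
  obtain ⟨z, hz, e⟩ := h.mul g g'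
  exact ⟨z i, center_apply hz i, congrFun e i⟩

lemma Lift.one_i (h : Lift s s') (i : ι) :
    s 1 i ∈ Subgroup.center (Matrix.SpecialLinearGroup (Fin (n i)) k) :=
  center_apply ((h.cen 1).mpr (one_mem _)) i

lemma Lift.cen_i (h : Lift s s') (i : ι) {g : SC k n} (hg : g ∈ Subgroup.center (SC k n)) :
    s g i ∈ Subgroup.center (Matrix.SpecialLinearGroup (Fin (n i)) k) :=
  center_apply ((h.cen g).mpr hg) i

/-- the image of a subgroup in the `i`-th factor -/
def Lift.im (h : Lift s s') (i : ι) (K : Subgroup (SC k n)) :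
    Subgroup (Matrix.SpecialLinearGroup (Fin (n i)) k) where
  carrier := {x | ∃ g ∈ K, ∃ z ∈ Subgroup.center (Matrix.SpecialLinearGroup (Fin (n i)) k),
    x = z * s g i}
  mul_mem' := by
    rintro _ _ ⟨g, hg, z, hz, rfl⟩ ⟨g', hg', z', hz', rfl⟩
    obtain ⟨c, hc, e⟩ := h.mul_i i g g'
    refine ⟨g * g', mul_mem hg hg', z * z' * c⁻¹, mul_mem (mul_mem hz hz') (inv_mem hc), ?_⟩
    rw [e]
    have hc' := Subgroup.mem_center_iff.mp hz'
    calc z * s g i * (z' * s g' i) = z * (s g i * z') * s g' i := by group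
      _ = z * (z' * s g i) * s g' i := by rw [hc']
      _ = _ := by group
  one_mem' := by
    refine ⟨1, one_mem _, (s 1 i)⁻¹, inv_mem (h.one_i i), ?_⟩
    rw [inv_mul_cancel]
  inv_mem' := by
    rintro _ ⟨g, hg, z, hz, rfl⟩
    obtain ⟨c, hc, e⟩ := h.mul_i i g⁻¹ g
    rw [inv_mul_cancel] at e
    have h1 := h.one_i i
    -- `s g⁻¹ i = c⁻¹ * s 1 i * (s g i)⁻¹`
    refine ⟨g⁻¹, inv_mem hg, z⁻¹ * (s 1 i)⁻¹ * c, mul_mem (mul_mem (inv_mem hz) (inv_mem h1)) hc, ?_⟩
    have hz' := Subgroup.mem_center_iff.mp (inv_mem hz)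
    have e2 : s g⁻¹ i = c⁻¹ * s 1 i * (s g i)⁻¹ := by
      rw [e]; group
    have e3 : c * (c⁻¹ * s 1 i * (s g i)⁻¹) = s 1 i * (s g i)⁻¹ := by group
    rw [e2, _root_.mul_inv_rev, hz', mul_assoc (z⁻¹ * (s 1 i)⁻¹), e3]
    group

lemma Lift.star_comm (h : Lift s s') (i j : ι) :
    ∀ x ∈ h.im i (MonoidHom.mulSingle (fun l => Matrix.SpecialLinearGroup (Fin (n l)) k) j).range,
    ∀ y ∈ h.im i (Pi.evalMonoidHom (fun l => Matrix.SpecialLinearGroup (Fin (n l)) k) j).ker,
    ∃ z ∈ Subgroup.center (Matrix.SpecialLinearGroup (Fin (n i)) k), x * y = z * (y * x) := by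
  rintro _ ⟨g, ⟨u, rfl⟩, z, hz, rfl⟩ _ ⟨g', hg', z', hz', rfl⟩
  have hg'' : g' j = 1 := hg'
  have hcm : (MonoidHom.mulSingle (fun l => Matrix.SpecialLinearGroup (Fin (n l)) k) j) u * g'
      = g' * (MonoidHom.mulSingle (fun l => Matrix.SpecialLinearGroup (Fin (n l)) k) j) u := by
    show Pi.mulSingle j u * g' = g' * Pi.mulSingle j u
    funext l
    rw [Pi.mul_apply, Pi.mul_apply]
    by_cases hl : l = j
    · subst hl
      rw [hg'', mul_one, one_mul]
    · rw [Pi.mulSingle_eq_of_ne hl, mul_one, one_mul]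
  generalize (MonoidHom.mulSingle (fun l => Matrix.SpecialLinearGroup (Fin (n l)) k) j) u = g at hcm
  obtain ⟨c, hc, e1⟩ := h.mul_i i g g'
  obtain ⟨c', hc', e2⟩ := h.mul_i i g' g
  rw [hcm, e2] at e1
  refine ⟨c⁻¹ * c', mul_mem (inv_mem hc) hc', ?_⟩
  have hz1 := Subgroup.mem_center_iff.mp hz
  have hz1' := Subgroup.mem_center_iff.mp hz'
  have e3 : s g i * s g' i = c⁻¹ * c' * (s g' i * s g i) := by
    rw [mul_assoc, e1, inv_mul_cancel_left]
  calc z * s g i * (z' * s g' i) = z * (s g i * z') * s g' i := by group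
    _ = z * z' * (s g i * s g' i) := by rw [hz1']; group
    _ = (z * z') * (c⁻¹ * c' * (s g' i * s g i)) := by rw [e3]
    _ = ((z * z') * (c⁻¹ * c')) * (s g' i * s g i) := by group
    _ = ((c⁻¹ * c') * (z * z')) * (s g' i * s g i) := by
      rw [Subgroup.mem_center_iff.mp (mul_mem (inv_mem hc) hc') (z * z')]
    _ = (c⁻¹ * c') * ((z' * z) * s g' i * s g i) := by
      rw [hz1 z']
      group
    _ = (c⁻¹ * c') * (z' * (s g' i * z) * s g i) := by rw [hz1 (s g' i)]; group
    _ = _ := by group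

lemma split_eq (j : ι) (g : SC k n) :
    ∃ g' : SC k n, g' j = 1 ∧ g = Pi.mulSingle j (g j) * g' := by
  refine ⟨(Pi.mulSingle j (g j))⁻¹ * g, ?_, by rw [mul_inv_cancel_left]⟩
  rw [Pi.mul_apply, Pi.inv_apply, Pi.mulSingle_eq_same, inv_mul_cancel]

theorem Lift.exists_star [CharZero k] [Finite ι] (h : Lift s s') (i : ι) (hi : 2 ≤ n i) :
    ∃ j, Star s i j := by
  by_contra hcon
  push Not at hcon
  have h1 : ∀ j, h.im i (MonoidHom.mulSingle (fun l => Matrix.SpecialLinearGroup (Fin (n l)) k) j).range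
      ≤ Subgroup.center (Matrix.SpecialLinearGroup (Fin (n i)) k) := by
    intro j
    rcases ind _ _ (h.star_comm i j) (fun x => by
      obtain ⟨z, hz, e⟩ := h.inv (Pi.mulSingle i x)
      obtain ⟨g', hg', e1⟩ := split_eq j (s' (Pi.mulSingle i x))
      obtain ⟨c, hc, e2⟩ := h.mul_i i (Pi.mulSingle j (s' (Pi.mulSingle i x) j)) g'
      rw [← e1] at e2
      refine ⟨z i * c, mul_mem (center_apply hz i) hc, s (Pi.mulSingle j (s' (Pi.mulSingle i x) j)) i,
        ⟨_, ⟨_, rfl⟩, 1, one_mem _, by rw [one_mul]; rfl⟩, s g' i,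
        ⟨g', hg', 1, one_mem _, by rw [one_mul]⟩, ?_⟩
      have e3 := congrFun e i
      rw [Pi.mulSingle_eq_same, Pi.mul_apply, e2] at e3
      refine e3.trans ?_
      simp only [mul_assoc]) with h2 | h2
    · exact h2
    · exfalso
      apply hcon j
      intro g hg
      exact h2 ⟨g, hg, 1, one_mem _, by rw [one_mul]⟩
  -- everything is central
  let H : Submonoid (SC k n) :=
    { carrier := {g | s g i ∈ Subgroup.center (Matrix.SpecialLinearGroup (Fin (n i)) k)}
      mul_mem' := by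
        intro g g' hg hg'
        obtain ⟨c, hc, e⟩ := h.mul_i i g g'
        show s (g * g') i ∈ Subgroup.center (Matrix.SpecialLinearGroup (Fin (n i)) k)
        rw [e]
        exact mul_mem hc (mul_mem hg hg')
      one_mem' := h.one_i i }
  have hH : ∀ g : SC k n, g ∈ H := by
    intro g
    apply Submonoid.pi_mem_of_mulSingle_mem
    intro j
    exact h1 j ⟨_, ⟨g j, rfl⟩, 1, one_mem _, by rw [one_mul]; rfl⟩
  obtain ⟨x, hx⟩ := exists_noncentral (k := k) hi
  apply hx
  obtain ⟨z, hz, e⟩ := h.inv (Pi.mulSingle i x)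
  have e3 := congrFun e i
  rw [Pi.mulSingle_eq_same, Pi.mul_apply] at e3
  rw [e3]
  exact mul_mem (center_apply hz i) (hH _)

/-- modulo the centre, the `i`-th component is determined by the `j`-th one -/
lemma Star.eq (h : Lift s s') {i j : ι} (hs : Star s i j) (g : SC k n) :
    ∃ z ∈ Subgroup.center (Matrix.SpecialLinearGroup (Fin (n i)) k),
      s g i = z * s (Pi.mulSingle j (g j)) i := by
  obtain ⟨g', hg', e1⟩ := split_eq j g
  obtain ⟨c, hc, e2⟩ := h.mul_i i (Pi.mulSingle j (g j)) g'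
  rw [← e1] at e2
  have h1 := hs g' hg'
  refine ⟨c * s g' i, mul_mem hc h1, ?_⟩
  rw [e2, Subgroup.mem_center_iff.mp h1, mul_assoc]

lemma Star.cen (h : Lift s s') {i j : ι} (hs : Star s i j) (g : SC k n)
    (hg : g j ∈ Subgroup.center (Matrix.SpecialLinearGroup (Fin (n j)) k)) :
    s g i ∈ Subgroup.center (Matrix.SpecialLinearGroup (Fin (n i)) k) := by
  obtain ⟨z, hz, e⟩ := Star.eq h hs g
  rw [e]
  refine mul_mem hz (h.cen_i i (center_pi_of fun l => ?_))
  by_cases hl : l = j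
  · subst hl
    rw [Pi.mulSingle_eq_same]
    exact hg
  · rw [Pi.mulSingle_eq_of_ne hl]
    exact one_mem _

lemma Star.two_le (h : Lift s s') {i j : ι} (hs : Star s i j) (hi : 2 ≤ n i) : 2 ≤ n j := by
  by_contra hcon
  obtain ⟨x, hx⟩ := exists_noncentral (k := k) hi
  apply hx
  obtain ⟨z, hz, e⟩ := h.inv (Pi.mulSingle i x)
  have e3 := congrFun e i
  rw [Pi.mulSingle_eq_same, Pi.mul_apply] at e3
  rw [e3]
  refine mul_mem (center_apply hz i) (hs _ ?_)
  exact center_subsingleton (by omega) _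

lemma Star.inv (h : Lift s s') {i j i' : ι} (hs : Star s i j) (hs' : Star s' j i') (hi : 2 ≤ n i) :
    i' = i := by
  by_contra hcon
  obtain ⟨x, hx⟩ := exists_noncentral (k := k) hi
  apply hx
  obtain ⟨z, hz, e⟩ := h.inv (Pi.mulSingle i x)
  have e3 := congrFun e i
  rw [Pi.mulSingle_eq_same, Pi.mul_apply] at e3
  rw [e3]
  refine mul_mem (center_apply hz i) (Star.cen h hs _ (hs' _ ?_))
  exact Pi.mulSingle_eq_of_ne hcon _

/-- the factor maps -/
lemma Lift.ph (h : Lift s s') {i j : ι} (hs' : Star s' j i) :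
    PH (fun y => s (Pi.mulSingle j y) i) where
  mul := by
    intro x y
    obtain ⟨z, hz, e⟩ := h.mul_i i (Pi.mulSingle j x) (Pi.mulSingle j y)
    exact ⟨z, hz, by rw [Pi.mulSingle_mul]; exact e⟩
  cen := by
    intro x
    constructor
    · intro hx
      obtain ⟨z, hz, e⟩ := h.inv' (Pi.mulSingle j x)
      have e3 := congrFun e j
      rw [Pi.mulSingle_eq_same, Pi.mul_apply] at e3
      rw [e3]
      exact mul_mem (center_apply hz j) (Star.cen h.symm hs' _ hx)
    · intro hx
      refine h.cen_i i (center_pi_of fun l => ?_)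
      by_cases hl : l = j
      · subst hl
        rw [Pi.mulSingle_eq_same]
        exact hx
      · rw [Pi.mulSingle_eq_of_ne hl]
        exact one_mem _

end Fac

end Pool.Agent.Helper14.RG
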