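import Pool.Agent.Helper14.RG.Cls.Fac

namespace Pool.Agent.Helper14.RG

open Matrix MvPolynomial

section Lift

variable {k : Type*} [Field k] {ι : Type*} {n : ι → ℕ} {Q : Type*} [Group Q]

lemma exists_of_pi_eq {π : SC k n →* Q} (hZ : π.ker ≤ Subgroup.center (SC k n)) {x y : SC k n}
    (h : π x = π y) : ∃ z ∈ Subgroup.center (SC k n), x = z * y := by
  refine ⟨x * y⁻¹, hZ ?_, by rw [inv_mul_cancel_right]⟩
  rw [MonoidHom.mem_ker, map_mul, map_inv, h, mul_inv_cancel]

lemma pi_center [CharZero k] [DecidableEq ι] {π : SC k n →* Q} (hπ : Function.Surjective π)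
    (hZ : π.ker ≤ Subgroup.center (SC k n)) (x : SC k n) :
    π x ∈ Subgroup.center Q ↔ x ∈ Subgroup.center (SC k n) := by
  constructor
  · intro h
    refine center_pi_of fun i => center_of_comm _ fun y => ?_
    have h1 : π (x * Pi.mulSingle i y) = π (Pi.mulSingle i y * x) := by
      rw [map_mul, map_mul]
      exact (Subgroup.mem_center_iff.mp h (π (Pi.mulSingle i y))).symm
    obtain ⟨z, hz, e⟩ := exists_of_pi_eq hZ h1
    refine ⟨z i, center_apply hz i, ?_⟩
    have := congrFun e i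
    rw [Pi.mul_apply, Pi.mul_apply, Pi.mul_apply, Pi.mulSingle_eq_same] at this
    exact this
  · intro h
    rw [Subgroup.mem_center_iff]
    intro q
    obtain ⟨y, rfl⟩ := hπ q
    rw [← map_mul, ← map_mul, Subgroup.mem_center_iff.mp h y]

lemma exists_lift [CharZero k] [DecidableEq ι] {π : SC k n →* Q} (hπ : Function.Surjective π)
    (hZ : π.ker ≤ Subgroup.center (SC k n)) (σ : Q ≃* Q) :
    ∃ s s' : SC k n → SC k n, (∀ g, π (s g) = σ (π g)) ∧ Lift s s' := by
  choose s hs using fun g : SC k n => hπ (σ (π g))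
  choose s' hs' using fun g : SC k n => hπ (σ.symm (π g))
  refine ⟨s, s', hs, ?_⟩
  constructor
  · intro g h
    apply exists_of_pi_eq hZ
    rw [hs, map_mul, map_mul, map_mul, hs, hs]
  · intro g h
    apply exists_of_pi_eq hZ
    rw [hs', map_mul, map_mul, map_mul, hs', hs']
  · intro g
    rw [← pi_center hπ hZ (s g), hs, mem_center_equiv, pi_center hπ hZ]
  · intro g
    rw [← pi_center hπ hZ (s' g), hs', mem_center_equiv, pi_center hπ hZ]
  · intro g
    apply exists_of_pi_eq hZ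
    rw [hs, hs', MulEquiv.apply_symm_apply]
  · intro g
    apply exists_of_pi_eq hZ
    rw [hs', hs, MulEquiv.symm_apply_apply]

/-- the factor maps are regular -/
lemma Lift.projHom [CharZero k] [Fintype ι] [DecidableEq ι] {π : SC k n →* Q}
    (hπ : Function.Surjective π) (hZ : π.ker ≤ Subgroup.center (SC k n)) (σ : Q ≃* Q)
    (hreg : ∀ f ∈ quotAlg (regSC k n) π, (fun q => f (σ q)) ∈ quotAlg (regSC k n) π)
    {s s' : SC k n → SC k n} (hs : ∀ g, π (s g) = σ (π g)) (h : Lift s s') {i j : ι}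
    (hs' : Star s' j i) : ProjHom (fun y => s (Pi.mulSingle j y) i) where
  mul := (h.ph hs').mul
  cen := (h.ph hs').cen
  reg := by
    intro α β
    let F : Matrix.SpecialLinearGroup (Fin (n i)) k → k :=
      fun x => ∏ l, (x : Matrix (Fin (n i)) (Fin (n i)) k) (α l) (β l)
    have hF : ∀ z ∈ Subgroup.center (Matrix.SpecialLinearGroup (Fin (n i)) k), ∀ x,
        F (z * x) = F x := by
      intro z hz x
      obtain ⟨r, hr, hrz⟩ := center_scalar hz
      show ∏ l, ((z * x : Matrix.SpecialLinearGroup (Fin (n i)) k) :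
        Matrix (Fin (n i)) (Fin (n i)) k) (α l) (β l) = _
      rw [Matrix.SpecialLinearGroup.coe_mul, hrz, Matrix.smul_mul, one_mul]
      simp only [Matrix.smul_apply, smul_eq_mul]
      rw [Finset.prod_mul_distrib, Finset.prod_const, Finset.card_univ, Fintype.card_fin, hr,
        one_mul]
    choose t ht using hπ
    have hft : ∀ g : SC k n, F (t (π g) i) = F (g i) := by
      intro g
      obtain ⟨z, hz, e⟩ := exists_of_pi_eq hZ (ht (π g))
      rw [e, Pi.mul_apply]
      exact hF _ (center_apply hz i) _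
    have h1 : (fun q => F (t q i)) ∈ quotAlg (regSC k n) π := by
      show (fun g => F (t (π g) i)) ∈ regSC k n
      simp only [hft]
      have h2 : (fun g : SC k n => F (g i)) = ∏ l, (fun g : SC k n =>
          (g i : Matrix (Fin (n i)) (Fin (n i)) k) (α l) (β l)) := by
        funext g
        rw [Finset.prod_apply]
      rw [h2]
      exact prod_mem fun l _ => Algebra.subset_adjoin ⟨i, α l, β l, rfl⟩
    have h2 : (fun g => F (t (σ (π g)) i)) ∈ regSC k n := hreg _ h1
    have h3 : (fun g => F (t (σ (π g)) i)) = fun g => F (s g i) := by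
      funext g
      rw [← hs, hft]
    rw [h3, regSC_eq] at h2
    exact slice_mem (fun i => slAlg k (n i)) h2 1 j

end Lift

section PermPart

variable {k : Type*} [Field k] [IsAlgClosed k] [CharZero k] {ι : Type*} [Fintype ι] [DecidableEq ι]
  {n : ι → ℕ} {Q : Type*} [Group Q]

theorem exists_perm {π : SC k n →* Q} (hπ : Function.Surjective π)
    (hZ : π.ker ≤ Subgroup.center (SC k n)) (σ : Q ≃* Q)
    (hreg : ∀ f ∈ quotAlg (regSC k n) π, (fun q => f (σ q)) ∈ quotAlg (regSC k n) π)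
    {s s' : SC k n → SC k n} (hs : ∀ g, π (s g) = σ (π g)) (h : Lift s s') :
    ∃ p : Equiv.Perm ι, (∀ i, 2 ≤ n i → Star s i (p i) ∧ Star s' (p i) i) ∧
      (∀ i, n i < 2 → p i = i) ∧ ∀ i, n (p i) = n i := by
  classical
  choose P hP using h.exists_star
  choose P' hP' using h.symm.exists_star
  have h2 : ∀ i hi, 2 ≤ n (P i hi) := fun i hi => Star.two_le h (hP i hi) hi
  have h2' : ∀ i hi, 2 ≤ n (P' i hi) := fun i hi => Star.two_le h.symm (hP' i hi) hi
  have hPP : ∀ i hi, P' (P i hi) (h2 i hi) = i := fun i hi =>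
    Star.inv h (hP i hi) (hP' _ (h2 i hi)) hi
  have hPP' : ∀ i hi, P (P' i hi) (h2' i hi) = i := fun i hi =>
    Star.inv h.symm (hP' i hi) (hP _ (h2' i hi)) hi
  let e : Equiv.Perm {i // 2 ≤ n i} :=
    { toFun := fun i => ⟨P i.1 i.2, h2 i.1 i.2⟩
      invFun := fun i => ⟨P' i.1 i.2, h2' i.1 i.2⟩
      left_inv := fun i => Subtype.ext (hPP i.1 i.2)
      right_inv := fun i => Subtype.ext (hPP' i.1 i.2) }
  have hin : ∀ i (hi : 2 ≤ n i), Equiv.Perm.ofSubtype e i = P i hi := fun i hi =>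
    Equiv.Perm.ofSubtype_apply_of_mem e hi
  have hout : ∀ i, ¬ (2 ≤ n i) → Equiv.Perm.ofSubtype e i = i := fun i hi =>
    Equiv.Perm.ofSubtype_apply_of_not_mem e hi
  have hst : ∀ i, 2 ≤ n i → Star s i (Equiv.Perm.ofSubtype e i) ∧
      Star s' (Equiv.Perm.ofSubtype e i) i := by
    intro i hi
    rw [hin i hi]
    refine ⟨hP i hi, ?_⟩
    have h3 := hP' (P i hi) (h2 i hi)
    rw [hPP i hi] at h3
    exact h3
  have hle : ∀ i ∈ (Finset.univ : Finset ι), n (Equiv.Perm.ofSubtype e i) ≤ n i := by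
    intro i _
    by_cases hi : 2 ≤ n i
    · obtain ⟨h3, h4⟩ := hst i hi
      exact (Lift.projHom hπ hZ σ hreg hs h h4).le (Star.two_le h h3 hi)
    · rw [hout i hi]
  have hsum : ∑ i, n (Equiv.Perm.ofSubtype e i) = ∑ i, n i := Equiv.sum_comp _ _
  have heq := (Finset.sum_eq_sum_iff_of_le hle).mp hsum
  exact ⟨Equiv.Perm.ofSubtype e, hst, fun i hi => hout i (by omega),
    fun i => heq i (Finset.mem_univ i)⟩

/-- the standard form of the automorphism, modulo the centre -/
theorem exists_data {π : SC k n →* Q} (hπ : Function.Surjective π)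
    (hZ : π.ker ≤ Subgroup.center (SC k n)) (σ : Q ≃* Q)
    (hreg : ∀ f ∈ quotAlg (regSC k n) π, (fun q => f (σ q)) ∈ quotAlg (regSC k n) π)
    {s s' : SC k n → SC k n} (hs : ∀ g, π (s g) = σ (π g)) (h : Lift s s') :
    ∃ (p : Equiv.Perm ι) (ε : ι → Bool) (a : ∀ i, Matrix (Fin (n i)) (Fin (n (p i))) k)
      (b : ∀ i, Matrix (Fin (n (p i))) (Fin (n i)) k), (∀ i, a i * b i = 1) ∧
      (∀ i, b i * a i = 1) ∧ ∀ g : SC k n, ∃ z ∈ Subgroup.center (SC k n),
        ∀ i, StdRel (ε i) (a i) ((z * s g) i : Matrix (Fin (n i)) (Fin (n i)) k)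
          (g (p i) : Matrix (Fin (n (p i))) (Fin (n (p i))) k) := by
  obtain ⟨p, hst, hout, hn⟩ := exists_perm hπ hZ σ hreg hs h
  have key : ∀ i, ∃ (ε : Bool) (a : Matrix (Fin (n i)) (Fin (n (p i))) k)
      (b : Matrix (Fin (n (p i))) (Fin (n i)) k), a * b = 1 ∧ b * a = 1 ∧ ∀ g : SC k n,
        ∃ z ∈ Subgroup.center (Matrix.SpecialLinearGroup (Fin (n i)) k),
        StdRel ε a ((z * s g i : Matrix.SpecialLinearGroup (Fin (n i)) k) :
          Matrix (Fin (n i)) (Fin (n i)) k)
          (g (p i) : Matrix (Fin (n (p i))) (Fin (n (p i))) k) := by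
    intro i
    by_cases hi : 2 ≤ n i
    · obtain ⟨h3, h4⟩ := hst i hi
      obtain ⟨ε, a, b, hab, hba, hx⟩ := cls hi (hn i) (Lift.projHom hπ hZ σ hreg hs h h4)
      refine ⟨ε, a, b, hab, hba, fun g => ?_⟩
      obtain ⟨z, hz, e⟩ := Star.eq h h3 g
      obtain ⟨z', hz', e'⟩ := hx (g (p i))
      refine ⟨z' * z⁻¹, mul_mem hz' (inv_mem hz), ?_⟩
      rw [e, mul_assoc, inv_mul_cancel_left]
      exact e'
    · rw [hout i (by omega)]
      refine ⟨false, 1, 1, one_mul _, one_mul _, fun g => ⟨1, one_mem _, ?_⟩⟩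
      show ((1 * s g i : Matrix.SpecialLinearGroup (Fin (n i)) k) :
          Matrix (Fin (n i)) (Fin (n i)) k) * 1 = 1 * (g i : Matrix (Fin (n i)) (Fin (n i)) k)
      rw [center_subsingleton (by omega) (g i), center_subsingleton (by omega) (1 * s g i), mul_one,
        one_mul]
  choose ε a b hab hba hg using key
  refine ⟨p, ε, a, b, hab, hba, fun g => ?_⟩
  choose z hz hzg using fun i => hg i g
  exact ⟨z, center_pi_of hz, fun i => hzg i⟩

end PermPart

end Pool.Agent.Helper14.RG
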