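import Pool.Agent.Helper14.RG.Cls.Fac2

namespace Pool.Agent.Helper14.RG

open Matrix MvPolynomial

section Rel

variable {k : Type*} [Field k]

lemma StdRel.one {p q : ℕ} (ε : Bool) (a : Matrix (Fin p) (Fin q) k) : StdRel ε a 1 1 := by
  cases ε
  · show 1 * a = a * 1
    rw [Matrix.one_mul, Matrix.mul_one]
  · show 1 * a * (1 : Matrix (Fin q) (Fin q) k).transpose = a
    rw [Matrix.one_mul, Matrix.transpose_one, Matrix.mul_one]

lemma StdRel.mul {p q : ℕ} {ε : Bool} {a : Matrix (Fin p) (Fin q) k} {h h' : Matrix (Fin p) (Fin p) k}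
    {g g' : Matrix (Fin q) (Fin q) k} (h1 : StdRel ε a h g) (h2 : StdRel ε a h' g') :
    StdRel ε a (h * h') (g * g') := by
  cases ε
  · have h3 : h * a = a * g := h1
    have h4 : h' * a = a * g' := h2
    show h * h' * a = a * (g * g')
    rw [Matrix.mul_assoc, h4, ← Matrix.mul_assoc, h3, Matrix.mul_assoc]
  · have h3 : h * a * g.transpose = a := h1
    have h4 : h' * a * g'.transpose = a := h2
    show h * h' * a * (g * g').transpose = a
    rw [Matrix.transpose_mul, Matrix.mul_assoc h, ← Matrix.mul_assoc, Matrix.mul_assoc h, h4, h3]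

lemma StdRel.pow {p q : ℕ} {ε : Bool} {a : Matrix (Fin p) (Fin q) k} {h : Matrix (Fin p) (Fin p) k}
    {g : Matrix (Fin q) (Fin q) k} (h1 : StdRel ε a h g) (N : ℕ) :
    StdRel ε a (h ^ N) (g ^ N) := by
  induction N with
  | zero => rw [pow_zero, pow_zero]; exact StdRel.one ε a
  | succ N ih => rw [pow_succ, pow_succ]; exact ih.mul h1

end Rel

section

variable {k : Type*} [Field k] [IsAlgClosed k] [CharZero k] {ι : Type*} [Fintype ι] [DecidableEq ι]
  {n : ι → ℕ} {Q : Type*} [Group Q]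

omit [IsAlgClosed k] [CharZero k] [DecidableEq ι] in
lemma exists_exponent [DecidableEq ι] : ∃ N : ℕ, 0 < N ∧ ∀ z ∈ Subgroup.center (SC k n), z ^ N = 1 := by
  refine ⟨∏ i, (n i).factorial, Finset.prod_pos fun i _ => Nat.factorial_pos _, fun z hz => ?_⟩
  funext i
  rw [Pi.pow_apply, Pi.one_apply]
  rcases Nat.eq_zero_or_pos (n i) with h0 | h0
  · rw [center_subsingleton (by omega) (z i), one_pow]
  · obtain ⟨c, hc⟩ := (Nat.dvd_factorial h0 le_rfl).trans
      (Finset.dvd_prod_of_mem (fun i => (n i).factorial) (Finset.mem_univ i))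
    rw [hc, pow_mul, center_pow (center_apply hz i), one_pow]

theorem exact_form {π : SC k n →* Q} (σ : Q ≃* Q)
    {s : SC k n → SC k n} (hs : ∀ g, π (s g) = σ (π g))
    (p : Equiv.Perm ι) (ε : ι → Bool) (a : ∀ i, Matrix (Fin (n i)) (Fin (n (p i))) k)
    (hg : ∀ g : SC k n, ∃ z ∈ Subgroup.center (SC k n),
        ∀ i, StdRel (ε i) (a i) ((z * s g) i : Matrix (Fin (n i)) (Fin (n i)) k)
          (g (p i) : Matrix (Fin (n (p i))) (Fin (n (p i))) k)) (g : SC k n) :
    ∃ h : SC k n, σ (π g) = π h ∧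
      ∀ i, StdRel (ε i) (a i) (h i : Matrix (Fin (n i)) (Fin (n i)) k)
        (g (p i) : Matrix (Fin (n (p i))) (Fin (n (p i))) k) := by
  obtain ⟨N, hN, hNz⟩ := exists_exponent (k := k) (n := n)
  let H : Submonoid (SC k n) :=
    { carrier := {g | ∃ h : SC k n, σ (π g) = π h ∧
        ∀ i, StdRel (ε i) (a i) (h i : Matrix (Fin (n i)) (Fin (n i)) k)
          (g (p i) : Matrix (Fin (n (p i))) (Fin (n (p i))) k)}
      mul_mem' := by
        rintro g g' ⟨h, h1, h2⟩ ⟨h', h1', h2'⟩
        refine ⟨h * h', by rw [map_mul, map_mul, map_mul, h1, h1'], fun i => ?_⟩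
        rw [Pi.mul_apply, Pi.mul_apply, Matrix.SpecialLinearGroup.coe_mul,
          Matrix.SpecialLinearGroup.coe_mul]
        exact (h2 i).mul (h2' i)
      one_mem' := by
        refine ⟨1, by rw [map_one, map_one], fun i => ?_⟩
        rw [Pi.one_apply, Pi.one_apply, Matrix.SpecialLinearGroup.coe_one,
          Matrix.SpecialLinearGroup.coe_one]
        exact StdRel.one _ _ }
  have hpow : ∀ g : SC k n, g ^ N ∈ H := by
    intro g
    obtain ⟨z, hz, h1⟩ := hg g
    refine ⟨(z * s g) ^ N, ?_, fun i => ?_⟩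
    · have hc : Commute z (s g) := (Subgroup.mem_center_iff.mp hz (s g)).symm
      rw [hc.mul_pow, hNz z hz, one_mul, map_pow, map_pow, map_pow, hs]
    · rw [Pi.pow_apply, Pi.pow_apply, Matrix.SpecialLinearGroup.coe_pow,
        Matrix.SpecialLinearGroup.coe_pow]
      exact (h1 i).pow N
  have hNk : (N : k) ≠ 0 := by rw [Nat.cast_ne_zero]; exact hN.ne'
  have hsing : ∀ j (y : Matrix.SpecialLinearGroup (Fin (n j)) k),
      (Pi.mulSingle j (y ^ N) : SC k n) ∈ H := by
    intro j y
    have h1 := hpow (MonoidHom.mulSingle (fun l => Matrix.SpecialLinearGroup (Fin (n l)) k) j y)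
    rw [← map_pow] at h1
    exact h1
  have hmem : g ∈ H := by
    apply Submonoid.pi_mem_of_mulSingle_mem
    intro j
    refine sl_ind (fun x => (Pi.mulSingle j x : SC k n) ∈ H) ?_ ?_ ?_ (g j)
    · intro D hD
      obtain ⟨u, hu, e1⟩ := exists_th D hD
      choose v hv using fun i => IsAlgClosed.exists_pow_nat_eq (u i) hN
      have hv' : ∏ i, v i ≠ 0 := by
        rw [prod_ne_iff] at hu ⊢
        intro i h0
        apply hu i
        rw [← hv i, h0, zero_pow hN.ne']
      have hpw : v ^ N = u := funext hv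
      show Pi.mulSingle j _ ∈ H
      rw [← e1, ← hpw, th_pow v hv']
      exact hsing j _
    · intro i l hil c
      show Pi.mulSingle j _ ∈ H
      have h1 : SpecialLinearGroup.transvection hil c
          = SpecialLinearGroup.transvection hil (c / N) ^ N := by
        rw [transvection_pow, mul_div_cancel₀ _ hNk]
      rw [h1]
      exact hsing j _
    · intro A B hA hB
      show Pi.mulSingle j (A * B) ∈ H
      rw [Pi.mulSingle_mul]
      exact mul_mem hA hB
  exact hmem

theorem intrinsic (π : SC k n →* Q) (hπ : Function.Surjective π)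
    (hZ : π.ker ≤ Subgroup.center (SC k n)) (σ : Q ≃* Q)
    (hreg : ∀ f ∈ quotAlg (regSC k n) π, (fun q => f (σ q)) ∈ quotAlg (regSC k n) π)
    (M : ℕ) (hM : 0 < M) (hfin : ∀ x, σ^[M] x = x) :
    RationalQuotient (quotAlg (regSC k n) π : Set (Q → k)) (fixSub σ) := by
  obtain ⟨s, s', hs, h⟩ := exists_lift hπ hZ σ
  obtain ⟨p, ε, a, b, hab, hba, hg⟩ := exists_data hπ hZ σ hreg hs h
  exact general_rational n π hπ hZ σ M hM hfin p ε a b hab hba (exact_form σ hs p ε a hg)

end

end Pool.Agent.Helper14.RG
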