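import Pool.Agent.Helper14.RG.StdChart

namespace Pool.Agent.Helper14.RG

open Matrix

section

variable {k : Type*} [Field k] [CharZero k] {n : ℕ}

/-- the matrix of a transvection -/
lemma tv_coe {a b : Fin n} (hab : a ≠ b) (c : k) :
    (SpecialLinearGroup.transvection hab c : Matrix (Fin n) (Fin n) k) = 1 + single a b c := rfl

lemma tv_inv_coe {a b : Fin n} (hab : a ≠ b) (c : k) :
    (((SpecialLinearGroup.transvection hab c)⁻¹ : Matrix.SpecialLinearGroup (Fin n) k) :
      Matrix (Fin n) (Fin n) k) = 1 - single a b c := by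
  rw [SpecialLinearGroup.transvection_inv, tv_coe, ← Matrix.single_neg, sub_eq_add_neg]

variable (A : Submodule k (Matrix (Fin n) (Fin n) k))
  (hA : ∀ g : Matrix.SpecialLinearGroup (Fin n) k, ∀ X ∈ A, (g : Matrix (Fin n) (Fin n) k) * X
    * ((g⁻¹ : Matrix.SpecialLinearGroup (Fin n) k) : Matrix (Fin n) (Fin n) k) ∈ A)

include hA in
lemma conj_br {X : Matrix (Fin n) (Fin n) k} (hX : X ∈ A) {a b : Fin n} (hab : a ≠ b) :
    single a b 1 * X - X * single a b 1 ∈ A ∧ single a b 1 * X * single a b 1 ∈ A := by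
  have h1 := hA (SpecialLinearGroup.transvection hab 1) X hX
  have h2 := hA ((SpecialLinearGroup.transvection hab 1)⁻¹) X hX
  rw [inv_inv, tv_coe, tv_inv_coe] at h2
  rw [tv_coe, tv_inv_coe] at h1
  constructor
  · have h3 := A.smul_mem (2 : k)⁻¹ (A.sub_mem h1 h2)
    have h4 : (2 : k)⁻¹ • ((1 + single a b 1) * X * (1 - single a b 1)
        - (1 - single a b 1) * X * (1 + single a b 1))
        = single a b 1 * X - X * single a b 1 := by
      have : (1 + single a b 1) * X * (1 - single a b 1)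
        - (1 - single a b 1) * X * (1 + single a b 1)
        = (2 : k) • (single a b 1 * X - X * single a b 1) := by
        rw [two_smul]
        noncomm_ring
      rw [this, smul_smul, inv_mul_cancel₀ two_ne_zero, one_smul]
    rw [h4] at h3
    exact h3
  · have h3 := A.smul_mem (2 : k)⁻¹ (A.sub_mem (A.smul_mem (2 : k) hX) (A.add_mem h1 h2))
    have h4 : (2 : k)⁻¹ • ((2 : k) • X - ((1 + single a b 1) * X * (1 - single a b 1)
        + (1 - single a b 1) * X * (1 + single a b 1)))
        = single a b 1 * X * single a b 1 := by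
      have : (2 : k) • X - ((1 + single a b 1) * X * (1 - single a b 1)
        + (1 - single a b 1) * X * (1 + single a b 1))
        = (2 : k) • (single a b 1 * X * single a b 1) := by
        rw [two_smul, two_smul]
        noncomm_ring
      rw [this, smul_smul, inv_mul_cancel₀ two_ne_zero, one_smul]
    rw [h4] at h3
    exact h3

include hA in
lemma conj_L1 {a b c : Fin n} (h : single a b (1 : k) ∈ A) (hca : c ≠ a) (hcb : c ≠ b) :
    single c b (1 : k) ∈ A := by
  have h1 := (conj_br A hA h hca).1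
  rw [Matrix.single_mul_single_same, Matrix.single_mul_single_of_ne _ _ _ _ hcb.symm, sub_zero,
    mul_one] at h1
  exact h1

include hA in
lemma conj_L2 {a b d : Fin n} (h : single a b (1 : k) ∈ A) (hda : d ≠ a) (hdb : d ≠ b) :
    single a d (1 : k) ∈ A := by
  have h1 := (conj_br A hA h hdb.symm).1
  rw [Matrix.single_mul_single_same, Matrix.single_mul_single_of_ne _ _ _ _ hda, zero_sub,
    mul_one] at h1
  exact (A.neg_mem_iff).mp h1

include hA in
lemma conj_L3 {a b : Fin n} (h : single a b (1 : k) ∈ A) (hab : a ≠ b) :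
    single b a (1 : k) ∈ A := by
  have h1 := (conj_br A hA h hab.symm).2
  rw [Matrix.single_mul_single_same, Matrix.single_mul_single_same, mul_one, mul_one] at h1
  exact h1

include hA in
lemma conj_all {a b : Fin n} (h : single a b (1 : k) ∈ A) (hab : a ≠ b) (c d : Fin n)
    (hcd : c ≠ d) : single c d (1 : k) ∈ A := by
  by_cases hca : c = a
  · subst hca
    by_cases hdb : d = b
    · subst hdb; exact h
    · exact conj_L2 A hA h hcd.symm hdb
  · by_cases hdb : d = b
    · subst hdb
      exact conj_L1 A hA h hca hcd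
    · by_cases hda : d = a
      · subst hda
        by_cases hcb : c = b
        · subst hcb; exact conj_L3 A hA h hab
        · exact conj_L2 A hA (conj_L1 A hA h hca hcb) (Ne.symm hca) hab
      · exact conj_L1 A hA (conj_L2 A hA h hda hdb) hca hcd

include hA in
lemma conj_nonscalar {X : Matrix (Fin n) (Fin n) k} (hX : X ∈ A)
    (hns : ∀ r : k, X ≠ r • (1 : Matrix (Fin n) (Fin n) k)) (c d : Fin n) (hcd : c ≠ d) :
    single c d (1 : k) ∈ A := by
  by_cases hoff : ∃ a b, a ≠ b ∧ X b a ≠ 0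
  · obtain ⟨a, b, hab, hX0⟩ := hoff
    have h1 := (conj_br A hA hX hab).2
    have h2 : single a b 1 * X * single a b 1 = X b a • single a b (1 : k) := by
      ext i j
      rw [Matrix.mul_apply, Finset.sum_eq_single a]
      · by_cases hi : i = a
        · subst hi
          by_cases hj : j = b
          · subst hj; simp
          · simp [Ne.symm hj]
        · simp [hi, Ne.symm hi]
      · intro l _ hl
        rw [Matrix.single_apply_of_row_ne (Ne.symm hl), mul_zero]
      · intro h; exact absurd (Finset.mem_univ _) h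
    rw [h2] at h1
    have h3 := A.smul_mem (X b a)⁻¹ h1
    rw [smul_smul, inv_mul_cancel₀ hX0, one_smul] at h3
    exact conj_all A hA h3 hab c d hcd
  · push Not at hoff
    have hdiag : X = diagonal (fun i => X i i) := by
      ext i j
      by_cases hij : i = j
      · subst hij; rw [Matrix.diagonal_apply_eq]
      · rw [Matrix.diagonal_apply_ne _ hij]
        exact hoff j i (Ne.symm hij)
    obtain ⟨a, b, hab⟩ : ∃ a b, X a a ≠ X b b := by
      by_contra hcon
      push Not at hcon
      apply hns (X c c)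
      ext i j
      rw [Matrix.smul_apply, smul_eq_mul, Matrix.one_apply]
      by_cases hij : i = j
      · rw [if_pos hij, mul_one, ← hij, hcon i c]
      · rw [if_neg hij, mul_zero, hoff j i (Ne.symm hij)]
    have hne : a ≠ b := fun h => hab (by rw [h])
    have h1 := (conj_br A hA hX hne).1
    have h2 : single a b 1 * X - X * single a b 1 = (X b b - X a a) • single a b (1 : k) := by
      rw [hdiag]
      ext i j
      rw [Matrix.sub_apply, Matrix.mul_diagonal, Matrix.diagonal_mul, Matrix.smul_apply, smul_eq_mul,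
        Matrix.diagonal_apply_eq, Matrix.diagonal_apply_eq]
      by_cases hi : i = a
      · subst hi
        by_cases hj : j = b
        · subst hj; simp
        · simp [Ne.symm hj]
      · simp [Ne.symm hi]
    rw [h2] at h1
    have h3 := A.smul_mem (X b b - X a a)⁻¹ h1
    rw [smul_smul, inv_mul_cancel₀ (sub_ne_zero.mpr (Ne.symm hab)), one_smul] at h3
    exact conj_all A hA h3 hne c d hcd

lemma mem_center_of_scalar {g : Matrix.SpecialLinearGroup (Fin n) k} {r : k}
    (h : (g : Matrix (Fin n) (Fin n) k) = r • (1 : Matrix (Fin n) (Fin n) k)) :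
    g ∈ Subgroup.center (Matrix.SpecialLinearGroup (Fin n) k) := by
  rw [Matrix.SpecialLinearGroup.mem_center_iff]
  refine ⟨r, ?_, ?_⟩
  · have h1 := g.2
    have h2 : (g : Matrix (Fin n) (Fin n) k).det = r ^ Fintype.card (Fin n) := by
      rw [h, Matrix.det_smul, Matrix.det_one, mul_one]
    rw [← h2]; exact h1
  · rw [h, Matrix.scalar_apply, Matrix.smul_one_eq_diagonal]

/-- `SL_n` is indecomposable modulo its centre -/
theorem ind (N N' : Subgroup (Matrix.SpecialLinearGroup (Fin n) k))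
    (hcomm : ∀ x ∈ N, ∀ y ∈ N', ∃ z ∈ Subgroup.center (Matrix.SpecialLinearGroup (Fin n) k),
      x * y = z * (y * x))
    (hgen : ∀ g, ∃ z ∈ Subgroup.center (Matrix.SpecialLinearGroup (Fin n) k), ∃ x ∈ N, ∃ y ∈ N',
      g = z * x * y) :
    N ≤ Subgroup.center (Matrix.SpecialLinearGroup (Fin n) k) ∨
      N' ≤ Subgroup.center (Matrix.SpecialLinearGroup (Fin n) k) := by
  by_cases hN : N ≤ Subgroup.center (Matrix.SpecialLinearGroup (Fin n) k)
  · exact Or.inl hN
  right
  obtain ⟨x0, hx0, hx0c⟩ := Set.not_subset.mp hN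
  let cc := fun (x y : Matrix.SpecialLinearGroup (Fin n) k)
    (hx : x ∈ Subgroup.center (Matrix.SpecialLinearGroup (Fin n) k)) =>
    (Subgroup.mem_center_iff.mp hx y)
  -- the algebra generated by `N`
  let A : Subalgebra k (Matrix (Fin n) (Fin n) k) :=
    Algebra.adjoin k {X | ∃ x ∈ N, X = (x : Matrix (Fin n) (Fin n) k)}
  have hmem : ∀ x ∈ N, (x : Matrix (Fin n) (Fin n) k) ∈ A := fun x hx =>
    Algebra.subset_adjoin ⟨x, hx, rfl⟩
  have hA : ∀ g : Matrix.SpecialLinearGroup (Fin n) k, ∀ X ∈ A, (g : Matrix (Fin n) (Fin n) k) * X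
      * ((g⁻¹ : Matrix.SpecialLinearGroup (Fin n) k) : Matrix (Fin n) (Fin n) k) ∈ A := by
    intro g X hX
    have hgg : ((g⁻¹ : Matrix.SpecialLinearGroup (Fin n) k) : Matrix (Fin n) (Fin n) k)
        * (g : Matrix (Fin n) (Fin n) k) = 1 := by
      rw [← Matrix.SpecialLinearGroup.coe_mul, inv_mul_cancel, Matrix.SpecialLinearGroup.coe_one]
    have hgg' : (g : Matrix (Fin n) (Fin n) k)
        * ((g⁻¹ : Matrix.SpecialLinearGroup (Fin n) k) : Matrix (Fin n) (Fin n) k) = 1 := by
      rw [← Matrix.SpecialLinearGroup.coe_mul, mul_inv_cancel, Matrix.SpecialLinearGroup.coe_one]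
    induction hX using Algebra.adjoin_induction with
    | mem X hX =>
      obtain ⟨x, hx, rfl⟩ := hX
      obtain ⟨z, hz, x1, hx1, y1, hy1, rfl⟩ := hgen g
      obtain ⟨z', hz', h1⟩ := hcomm x hx y1 hy1
      have h2 : z * x1 * y1 * x * (z * x1 * y1)⁻¹ = z'⁻¹ * (x1 * x * x1⁻¹) := by
        have e1 : y1 * x = z'⁻¹ * (x * y1) := by rw [h1, inv_mul_cancel_left]
        have hzi := inv_mem hz'
        calc z * x1 * y1 * x * (z * x1 * y1)⁻¹
            = z * x1 * (y1 * x) * (y1⁻¹ * x1⁻¹ * z⁻¹) := by group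
          _ = z * (x1 * z'⁻¹) * x * x1⁻¹ * z⁻¹ := by rw [e1]; group
          _ = z * (z'⁻¹ * x1) * x * x1⁻¹ * z⁻¹ := by rw [cc _ x1 hzi]
          _ = (z * (z'⁻¹ * x1 * x * x1⁻¹)) * z⁻¹ := by group
          _ = ((z'⁻¹ * x1 * x * x1⁻¹) * z) * z⁻¹ := by rw [cc z _ hz]
          _ = _ := by group
      rw [← Matrix.SpecialLinearGroup.coe_mul, ← Matrix.SpecialLinearGroup.coe_mul, h2,
        Matrix.SpecialLinearGroup.coe_mul]
      obtain ⟨r, -, hr⟩ := center_scalar (inv_mem hz')
      rw [hr, Matrix.smul_mul, one_mul]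
      exact A.smul_mem (hmem _ (N.mul_mem (N.mul_mem hx1 hx) (N.inv_mem hx1))) r
    | algebraMap r =>
      rw [Algebra.algebraMap_eq_smul_one, Matrix.mul_smul, mul_one, Matrix.smul_mul, hgg',
        ← Algebra.algebraMap_eq_smul_one]
      exact A.algebraMap_mem r
    | add X Y _ _ hX hY =>
      rw [mul_add, add_mul]; exact add_mem hX hY
    | mul X Y _ _ hX hY =>
      have h1 : (g : Matrix (Fin n) (Fin n) k) * (X * Y)
          * ((g⁻¹ : Matrix.SpecialLinearGroup (Fin n) k) : Matrix (Fin n) (Fin n) k)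
          = ((g : Matrix (Fin n) (Fin n) k) * X
            * ((g⁻¹ : Matrix.SpecialLinearGroup (Fin n) k) : Matrix (Fin n) (Fin n) k))
            * ((g : Matrix (Fin n) (Fin n) k) * Y
            * ((g⁻¹ : Matrix.SpecialLinearGroup (Fin n) k) : Matrix (Fin n) (Fin n) k)) := by
        calc (g : Matrix (Fin n) (Fin n) k) * (X * Y)
              * ((g⁻¹ : Matrix.SpecialLinearGroup (Fin n) k) : Matrix (Fin n) (Fin n) k)
            = (g : Matrix (Fin n) (Fin n) k) * X * 1 * Y
              * ((g⁻¹ : Matrix.SpecialLinearGroup (Fin n) k) : Matrix (Fin n) (Fin n) k) := by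
              rw [mul_one]; simp only [mul_assoc]
          _ = _ := by rw [← hgg]; simp only [mul_assoc]
      rw [h1]
      exact mul_mem hX hY
  have hoff : ∀ c d : Fin n, c ≠ d → single c d (1 : k) ∈ A := by
    intro c d hcd
    refine conj_nonscalar (Subalgebra.toSubmodule A) hA (hmem x0 hx0) ?_ c d hcd
    intro r hr
    exact hx0c (mem_center_of_scalar hr)
  -- everything in `A` commutes with what commutes with `N`
  have hcen : ∀ w : Matrix.SpecialLinearGroup (Fin n) k, (∀ x ∈ N, x * w = w * x) →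
      w ∈ Subgroup.center (Matrix.SpecialLinearGroup (Fin n) k) := by
    intro w hw
    have hwA : ∀ X ∈ A, X * (w : Matrix (Fin n) (Fin n) k) = (w : Matrix (Fin n) (Fin n) k) * X := by
      intro X hX
      induction hX using Algebra.adjoin_induction with
      | mem X hX =>
        obtain ⟨x, hx, rfl⟩ := hX
        rw [← Matrix.SpecialLinearGroup.coe_mul, hw x hx, Matrix.SpecialLinearGroup.coe_mul]
      | algebraMap r => exact Algebra.commutes r _
      | add X Y _ _ hX hY => rw [add_mul, mul_add, hX, hY]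
      | mul X Y _ _ hX hY => rw [mul_assoc, hY, ← mul_assoc, hX, mul_assoc]
    obtain ⟨r, hr⟩ : (w : Matrix (Fin n) (Fin n) k) ∈ Set.range (Matrix.scalar (Fin n)) := by
      apply Matrix.mem_range_scalar_of_commute_single
      intro i j hij
      exact hwA _ (hoff i j hij)
    apply mem_center_of_scalar (r := r)
    rw [← hr, Matrix.scalar_apply, Matrix.smul_one_eq_diagonal]
  -- commutators of `N'` are central
  have hcm : ∀ y ∈ N', ∀ y' ∈ N', y * y' * y⁻¹ * y'⁻¹ ∈
      Subgroup.center (Matrix.SpecialLinearGroup (Fin n) k) := by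
    intro y hy y' hy'
    apply hcen
    intro x hx
    obtain ⟨z, hz, h1⟩ := hcomm x hx y hy
    obtain ⟨z', hz', h2⟩ := hcomm x hx y' hy'
    have e1 : x * y * x⁻¹ = z * y := by rw [h1]; group
    have e2 : x * y' * x⁻¹ = z' * y' := by rw [h2]; group
    have e3 : x * (y * y' * y⁻¹ * y'⁻¹) * x⁻¹ = y * y' * y⁻¹ * y'⁻¹ := by
      calc x * (y * y' * y⁻¹ * y'⁻¹) * x⁻¹
          = (x * y * x⁻¹) * (x * y' * x⁻¹) * (x * y * x⁻¹)⁻¹ * (x * y' * x⁻¹)⁻¹ := by group
        _ = z * y * (z' * y') * (z * y)⁻¹ * (z' * y')⁻¹ := by rw [e1, e2]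
        _ = z * (y * z') * y' * y⁻¹ * z⁻¹ * y'⁻¹ * z'⁻¹ := by group
        _ = z * (z' * y) * y' * y⁻¹ * z⁻¹ * y'⁻¹ * z'⁻¹ := by rw [cc z' y hz']
        _ = z * (z' * y * y' * y⁻¹) * z⁻¹ * y'⁻¹ * z'⁻¹ := by group
        _ = (z' * y * y' * y⁻¹) * z * z⁻¹ * y'⁻¹ * z'⁻¹ := by rw [cc z _ hz]
        _ = z' * (y * y' * y⁻¹ * y'⁻¹) * z'⁻¹ := by group
        _ = (y * y' * y⁻¹ * y'⁻¹) * z' * z'⁻¹ := by rw [cc z' _ hz']
        _ = _ := by group
    calc x * (y * y' * y⁻¹ * y'⁻¹) = x * (y * y' * y⁻¹ * y'⁻¹) * x⁻¹ * x := by group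
      _ = _ := by rw [e3]
  intro y hy
  have hydet : (y : Matrix (Fin n) (Fin n) k).det ≠ 0 := by rw [y.2]; exact one_ne_zero
  obtain ⟨r, -, hr⟩ := scalar_of_conj (y : Matrix (Fin n) (Fin n) k) hydet (by
    intro g
    obtain ⟨z, hz, x, hx, y', hy', rfl⟩ := hgen g
    obtain ⟨z1, hz1, h1⟩ := hcomm x hx y hy
    have h2 := hcm y hy y' hy'
    refine ⟨z1⁻¹ * (y * y' * y⁻¹ * y'⁻¹), mul_mem (inv_mem hz1) h2, ?_⟩
    rw [← Matrix.SpecialLinearGroup.coe_mul, ← Matrix.SpecialLinearGroup.coe_mul]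
    congr 1
    have hz1i := inv_mem hz1
    generalize hw : y * y' * y⁻¹ * y'⁻¹ = w at h2
    have e1 : y * x = z1⁻¹ * (x * y) := by rw [h1, inv_mul_cancel_left]
    have e2 : y * y' = w * (y' * y) := by rw [← hw]; group
    symm
    calc y * (z * x * y') = (y * z) * x * y' := by group
      _ = (z * y) * x * y' := by rw [cc z y hz]
      _ = z * (y * x) * y' := by group
      _ = z * z1⁻¹ * x * (y * y') := by rw [e1]; group
      _ = z * z1⁻¹ * (x * w) * y' * y := by rw [e2]; group
      _ = z * z1⁻¹ * (w * x) * y' * y := by rw [cc w x h2]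
      _ = (z * (z1⁻¹ * w)) * x * y' * y := by group
      _ = (z1⁻¹ * w) * z * x * y' * y := by rw [cc z (z1⁻¹ * w) hz]
      _ = z1⁻¹ * w * (z * x * y') * y := by group)
  exact mem_center_of_scalar hr

end

end Pool.Agent.Helper14.RG
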