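import Pool.Agent.Helper14.RG.Cls.Transv

namespace Pool.Agent.Helper14.RG

open Matrix MvPolynomial

lemma sl_ind {k : Type*} [Field k] {n : ℕ} (P : Matrix.SpecialLinearGroup (Fin n) k → Prop)
    (hdiag : ∀ (D : Fin n → k) (hD : det (diagonal D) = 1), P ⟨diagonal D, hD⟩)
    (htr : ∀ (i j : Fin n) (hij : i ≠ j) (a : k), P (SpecialLinearGroup.transvection hij a))
    (hmul : ∀ A B, P A → P B → P (A * B)) (M : Matrix.SpecialLinearGroup (Fin n) k) : P M := by
  have hP1 : P 1 := by
    have h1 := hdiag 1 (by rw [Matrix.det_diagonal]; simp)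
    have h2 : (⟨diagonal (1 : Fin n → k), by rw [Matrix.det_diagonal]; simp⟩ :
        Matrix.SpecialLinearGroup (Fin n) k) = (1 : Matrix.SpecialLinearGroup (Fin n) k) := by
      apply Subtype.ext
      show diagonal (1 : Fin n → k) = (1 : Matrix (Fin n) (Fin n) k)
      exact Matrix.diagonal_one
    rw [h2] at h1
    exact h1
  have hlist (L : List (TransvectionStruct (Fin n) k)) :
      P (L.map TransvectionStruct.toSpecialLinearGroup).prod := by
    induction L with
    | nil => simpa using hP1
    | cons t L ih =>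
      rw [List.map_cons, List.prod_cons, t.toSpecialLinearGroup_def]
      exact hmul _ _ (htr t.i t.j t.hij t.c) ih
  obtain ⟨L, L', D, hD, hM⟩ :=
    SpecialLinearGroup.exists_list_transvec_mul_diagonal_mul_list_transvec M
  exact hM ▸ hmul _ _ (hmul _ _ (hlist L) (hdiag D hD)) (hlist L')

/-- every diagonal matrix is in the image of `th` -/
lemma exists_th {k : Type*} [Field k] [IsAlgClosed k] {n : ℕ} (D : Fin n → k)
    (hD : det (diagonal D) = 1) : ∃ u : Fin n → k, ∏ i, u i ≠ 0 ∧ th u = ⟨diagonal D, hD⟩ := by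
  rcases Nat.eq_zero_or_pos n with hn | hn
  · subst hn
    refine ⟨1, by simp, ?_⟩
    apply Subtype.ext
    exact Subsingleton.elim _ _
  rw [Matrix.det_diagonal] at hD
  choose r hr using fun i => IsAlgClosed.exists_pow_nat_eq (D i) hn
  have hDi : ∀ i, D i ≠ 0 := by
    have : ∏ i, D i ≠ 0 := by rw [hD]; exact one_ne_zero
    exact prod_ne_iff.mp this
  have hri : ∀ i, r i ≠ 0 := by
    intro i h0
    apply hDi i
    rw [← hr i, h0, zero_pow hn.ne']
  have hR : ∏ i, r i ≠ 0 := prod_ne_iff.mpr hri
  have hRn : (∏ i, r i) ^ n = 1 := by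
    rw [← Finset.prod_pow, ← hD]
    exact Finset.prod_congr rfl fun i _ => hr i
  let i0 : Fin n := ⟨0, hn⟩
  let v : Fin n → k := Function.update 1 i0 (∏ i, r i)⁻¹
  have hv : ∏ i, v i = (∏ i, r i)⁻¹ := prod_update i0 _
  have hu : ∏ i, (r * v) i = 1 := by
    simp only [Pi.mul_apply]
    rw [Finset.prod_mul_distrib, hv, mul_inv_cancel₀ hR]
  have hvn : ∀ i, v i ^ n = 1 := by
    intro i
    by_cases hi : i = i0
    · rw [hi]
      show (Function.update (1 : Fin n → k) i0 (∏ i, r i)⁻¹ i0) ^ n = 1
      rw [Function.update_self, inv_pow, hRn, inv_one]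
    · show (Function.update (1 : Fin n → k) i0 (∏ i, r i)⁻¹ i) ^ n = 1
      rw [Function.update_of_ne hi, Pi.one_apply, one_pow]
  refine ⟨r * v, by rw [hu]; exact one_ne_zero, ?_⟩
  apply Subtype.ext
  show (th (r * v) : Matrix (Fin n) (Fin n) k) = diagonal D
  rw [th_coe _ (by rw [hu]; exact one_ne_zero), hu]
  congr 1
  funext i
  rw [div_one, Pi.mul_apply, mul_pow, hvn, mul_one, hr]

section

variable {k : Type*} [Field k] [IsAlgClosed k] [CharZero k] {n : ℕ}
  {φ : Matrix.SpecialLinearGroup (Fin n) k → Matrix.SpecialLinearGroup (Fin n) k}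
  (h : PH φ)
  (hN : ∀ u : Fin n → k, ∏ i, u i ≠ 0 →
    ∃ z ∈ Subgroup.center (Matrix.SpecialLinearGroup (Fin n) k), φ (th u) = z * th u)

include h hN in
lemma image_all {i j : Fin n} (hij : i ≠ j) : ∃ p : k, p ≠ 0 ∧ ∀ s : k,
    ∃ z ∈ Subgroup.center (Matrix.SpecialLinearGroup (Fin n) k),
      φ (SpecialLinearGroup.transvection hij s)
        = z * SpecialLinearGroup.transvection hij (p * s) := by
  have hn : 0 < n := lt_of_le_of_lt (Nat.zero_le _) i.isLt
  obtain ⟨p, hp, z1, hz1, e1⟩ := image_one h hN hij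
  refine ⟨p, hp, fun s => ?_⟩
  by_cases hs : s = 0
  · refine ⟨φ 1, (h.cen 1).mpr (one_mem _), ?_⟩
    rw [hs, mul_zero, SpecialLinearGroup.transvection_coeff_zero, mul_one]
  obtain ⟨q, hq⟩ := IsAlgClosed.exists_pow_nat_eq s hn
  have hq0 : q ≠ 0 := by
    rintro rfl
    rw [zero_pow hn.ne'] at hq
    exact hs hq.symm
  let u : Fin n → k := Function.update 1 i q
  have hu : ∏ i, u i ≠ 0 := by rw [prod_update i q]; exact hq0
  have hui : u i = q := Function.update_self _ _ _
  have huj : u j = 1 := Function.update_of_ne hij.symm _ _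
  have hxy : th u * SpecialLinearGroup.transvection hij (1 : k)
      = SpecialLinearGroup.transvection hij s * th u := by
    rw [th_transv hij (1 : k) u hu, hui, huj, hq, one_pow, div_one, mul_one]
  have hxy' : th u * SpecialLinearGroup.transvection hij p
      = SpecialLinearGroup.transvection hij (p * s) * th u := by
    rw [th_transv hij p u hu, hui, huj, hq, one_pow, div_one, mul_comm s]
  obtain ⟨z, hz, e2⟩ := phi_rel h hN u hu hxy
  refine ⟨z⁻¹ * z1, mul_mem (inv_mem hz) hz1, ?_⟩
  have hc := Subgroup.mem_center_iff.mp hz1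
  apply mul_right_cancel (b := th u)
  have e3 : φ (SpecialLinearGroup.transvection hij s) * th u
      = z⁻¹ * (th u * φ (SpecialLinearGroup.transvection hij 1)) := by
    rw [e2, inv_mul_cancel_left]
  rw [e3, e1, ← mul_assoc (th u), hc, mul_assoc z1, hxy']
  simp only [mul_assoc]

end

section Rel

variable {k : Type*} [Field k] {n : ℕ}

lemma tv_mul_entries {i j : Fin n} (hij : i ≠ j) (s : k) (X : Matrix (Fin n) (Fin n) k)
    (a b : Fin n) : (((SpecialLinearGroup.transvection hij s :
      Matrix.SpecialLinearGroup (Fin n) k) : Matrix (Fin n) (Fin n) k) * X) a b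
      = X a b + (if i = a then s * X j b else 0) := by
  rw [SpecialLinearGroup.transvection_coe, add_mul, one_mul, Matrix.add_apply]
  congr 1
  by_cases h : i = a
  · rw [if_pos h, ← h, Matrix.single_mul_apply_same]
  · rw [if_neg h, Matrix.single_mul_apply_of_ne]
    exact Ne.symm h

lemma tv_entries {i j : Fin n} (hij : i ≠ j) (s : k) (a b : Fin n) :
    ((SpecialLinearGroup.transvection hij s : Matrix.SpecialLinearGroup (Fin n) k) :
      Matrix (Fin n) (Fin n) k) a b = (if a = b then 1 else 0) + (if i = a ∧ j = b then s else 0) := by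
  rw [SpecialLinearGroup.transvection_coe, Matrix.add_apply, Matrix.one_apply, Matrix.single_apply]

lemma chev1 {i j l : Fin n} (hij : i ≠ j) (hjl : j ≠ l) (hil : i ≠ l) (a b : k) :
    SpecialLinearGroup.transvection hij a * SpecialLinearGroup.transvection hjl b
      = SpecialLinearGroup.transvection hil (a * b) * (SpecialLinearGroup.transvection hjl b
        * SpecialLinearGroup.transvection hij a) := by
  apply Subtype.ext
  show ((SpecialLinearGroup.transvection hij a * SpecialLinearGroup.transvection hjl b :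
    Matrix.SpecialLinearGroup (Fin n) k) : Matrix (Fin n) (Fin n) k)
    = ((SpecialLinearGroup.transvection hil (a * b) * (SpecialLinearGroup.transvection hjl b
        * SpecialLinearGroup.transvection hij a) : Matrix.SpecialLinearGroup (Fin n) k) :
          Matrix (Fin n) (Fin n) k)
  rw [Matrix.SpecialLinearGroup.coe_mul, Matrix.SpecialLinearGroup.coe_mul,
    Matrix.SpecialLinearGroup.coe_mul, SpecialLinearGroup.transvection_coe,
    SpecialLinearGroup.transvection_coe, SpecialLinearGroup.transvection_coe]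
  have e1 : (single j l b : Matrix (Fin n) (Fin n) k) * single i j a = 0 :=
    Matrix.single_mul_single_of_ne _ _ _ _ hil.symm _
  have e2 : (single i j a : Matrix (Fin n) (Fin n) k) * single j l b = single i l (a * b) :=
    Matrix.single_mul_single_same _ _ _ _ _
  have e3 : (single i l (a * b) : Matrix (Fin n) (Fin n) k) * single j l b = 0 :=
    Matrix.single_mul_single_of_ne _ _ _ _ hjl.symm _
  have e4 : (single i l (a * b) : Matrix (Fin n) (Fin n) k) * single i j a = 0 :=
    Matrix.single_mul_single_of_ne _ _ _ _ hil.symm _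
  simp only [mul_add, add_mul, one_mul, mul_one, e1, e2, e3, e4, mul_zero, add_zero]
  abel

lemma braid_one {i j : Fin n} (hij : i ≠ j) :
    SpecialLinearGroup.transvection hij (1 : k) * (SpecialLinearGroup.transvection hij.symm (-1 : k)
      * SpecialLinearGroup.transvection hij (1 : k))
      = SpecialLinearGroup.transvection hij.symm (-1 : k)
        * (SpecialLinearGroup.transvection hij (1 : k)
          * SpecialLinearGroup.transvection hij.symm (-1 : k)) := by
  apply Subtype.ext
  show ((SpecialLinearGroup.transvection hij (1 : k) * (SpecialLinearGroup.transvection hij.symm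
    (-1 : k) * SpecialLinearGroup.transvection hij (1 : k)) : Matrix.SpecialLinearGroup (Fin n) k) :
    Matrix (Fin n) (Fin n) k) = ((SpecialLinearGroup.transvection hij.symm (-1 : k)
        * (SpecialLinearGroup.transvection hij (1 : k)
          * SpecialLinearGroup.transvection hij.symm (-1 : k)) :
            Matrix.SpecialLinearGroup (Fin n) k) : Matrix (Fin n) (Fin n) k)
  ext a b
  rw [Matrix.SpecialLinearGroup.coe_mul, Matrix.SpecialLinearGroup.coe_mul,
    Matrix.SpecialLinearGroup.coe_mul, Matrix.SpecialLinearGroup.coe_mul]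
  simp only [tv_mul_entries, tv_entries]
  by_cases h1 : a = i <;> by_cases h2 : a = j <;> by_cases h3 : b = i <;> by_cases h4 : b = j <;>
    simp_all [eq_comm]

lemma braid_rel [CharZero k] {i j : Fin n} (hij : i ≠ j) (p q ρ : k) (hp : p ≠ 0) (hq : q ≠ 0)
    (h : ((SpecialLinearGroup.transvection hij p * (SpecialLinearGroup.transvection hij.symm
      (q * -1) * SpecialLinearGroup.transvection hij p) : Matrix.SpecialLinearGroup (Fin n) k) :
        Matrix (Fin n) (Fin n) k)
      = ρ • ((SpecialLinearGroup.transvection hij.symm (q * -1)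
        * (SpecialLinearGroup.transvection hij p
          * SpecialLinearGroup.transvection hij.symm (q * -1)) :
            Matrix.SpecialLinearGroup (Fin n) k) : Matrix (Fin n) (Fin n) k)) : p * q = 1 := by
  rw [Matrix.SpecialLinearGroup.coe_mul, Matrix.SpecialLinearGroup.coe_mul,
    Matrix.SpecialLinearGroup.coe_mul, Matrix.SpecialLinearGroup.coe_mul] at h
  have h1 := congrFun (congrFun h i) i
  have h2 := congrFun (congrFun h i) j
  have h3 := congrFun (congrFun h j) i
  simp only [Matrix.smul_apply, tv_mul_entries, tv_entries, smul_eq_mul, hij, hij.symm,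
    if_true, if_false, true_and, and_true, and_self, false_and, and_false, add_zero, zero_add,
    mul_one, mul_zero] at h1 h2 h3
  have e2 : 2 - p * q = ρ := by
    apply mul_left_cancel₀ hp
    linear_combination h2
  have e3 : ρ * (2 - p * q) = 1 := by
    apply mul_left_cancel₀ hq
    linear_combination h3
  have e1 : 1 - p * q = ρ * (1 - p * q) := by linear_combination h1
  have e4 : ρ ^ 2 = 1 := by rw [← e3, e2, sq]
  have e5 : (ρ - 1) * (ρ + 1) = 0 := by linear_combination e4
  rcases mul_eq_zero.mp e5 with h5 | h5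
  · linear_combination -e2 + -h5
  · exfalso
    have h6 : ρ = -1 := by linear_combination h5
    rw [h6] at e1 e2
    have : (4 : k) = 0 := by linear_combination -e1 + 2 * e2
    norm_num at this

end Rel

section Main

variable {k : Type*} [Field k] [IsAlgClosed k] [CharZero k] {n : ℕ}
  {φ : Matrix.SpecialLinearGroup (Fin n) k → Matrix.SpecialLinearGroup (Fin n) k}

lemma qeq {x y : Matrix.SpecialLinearGroup (Fin n) k}
    (h : ∃ z ∈ Subgroup.center (Matrix.SpecialLinearGroup (Fin n) k), x = z * y) :
    (QuotientGroup.mk' (Subgroup.center (Matrix.SpecialLinearGroup (Fin n) k))) x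
      = (QuotientGroup.mk' (Subgroup.center (Matrix.SpecialLinearGroup (Fin n) k))) y := by
  obtain ⟨z, hz, rfl⟩ := h
  rw [map_mul]
  have : (QuotientGroup.mk' (Subgroup.center (Matrix.SpecialLinearGroup (Fin n) k))) z = 1 :=
    (QuotientGroup.eq_one_iff z).mpr hz
  rw [this, one_mul]

lemma of_qeq {x y : Matrix.SpecialLinearGroup (Fin n) k}
    (h : (QuotientGroup.mk' (Subgroup.center (Matrix.SpecialLinearGroup (Fin n) k))) x
      = (QuotientGroup.mk' (Subgroup.center (Matrix.SpecialLinearGroup (Fin n) k))) y) :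
    ∃ z ∈ Subgroup.center (Matrix.SpecialLinearGroup (Fin n) k), x = z * y := by
  refine ⟨x * y⁻¹, ?_, by rw [inv_mul_cancel_right]⟩
  rw [← QuotientGroup.eq_one_iff]
  have h1 : (QuotientGroup.mk' (Subgroup.center (Matrix.SpecialLinearGroup (Fin n) k))) (x * y⁻¹)
      = 1 := by rw [map_mul, map_inv, h, mul_inv_cancel]
  exact h1

lemma tv_qinj {i j : Fin n} (hij : i ≠ j) {a b : k}
    (h : (QuotientGroup.mk' (Subgroup.center (Matrix.SpecialLinearGroup (Fin n) k)))
        (SpecialLinearGroup.transvection hij a)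
      = (QuotientGroup.mk' (Subgroup.center (Matrix.SpecialLinearGroup (Fin n) k)))
        (SpecialLinearGroup.transvection hij b)) : a = b := by
  obtain ⟨z, hz, e⟩ := of_qeq h
  have h1 : z = SpecialLinearGroup.transvection hij (a + -b) := by
    rw [SpecialLinearGroup.transvection_add, ← SpecialLinearGroup.transvection_inv, e,
      mul_inv_cancel_right]
  rw [h1, SpecialLinearGroup.transvection_mem_center_iff] at hz
  linear_combination hz

theorem norm_main (h : PH φ) (hN : ∀ u : Fin n → k, ∏ i, u i ≠ 0 →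
    ∃ z ∈ Subgroup.center (Matrix.SpecialLinearGroup (Fin n) k), φ (th u) = z * th u) :
    ∃ a : Matrix (Fin n) (Fin n) k, a.det ≠ 0 ∧ ∀ x, ∃ z ∈ Subgroup.center
      (Matrix.SpecialLinearGroup (Fin n) k),
      ((z * φ x : Matrix.SpecialLinearGroup (Fin n) k) : Matrix (Fin n) (Fin n) k) * a
        = a * (x : Matrix (Fin n) (Fin n) k) := by
  classical
  rcases Nat.eq_zero_or_pos n with hn | hn
  · subst hn
    exact ⟨1, by rw [Matrix.det_one]; exact one_ne_zero, fun x => ⟨1, one_mem _,
      Subsingleton.elim _ _⟩⟩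
  choose p hp hP using fun (i j : Fin n) (hij : i ≠ j) => image_all h hN hij
  have hq : ∀ (i j : Fin n) (hij : i ≠ j) (s : k),
      (QuotientGroup.mk' (Subgroup.center (Matrix.SpecialLinearGroup (Fin n) k)))
        (φ (SpecialLinearGroup.transvection hij s))
      = (QuotientGroup.mk' (Subgroup.center (Matrix.SpecialLinearGroup (Fin n) k)))
        (SpecialLinearGroup.transvection hij (p i j hij * s)) := fun i j hij s => qeq (hP i j hij s)
  have hm : ∀ x y, (QuotientGroup.mk' (Subgroup.center (Matrix.SpecialLinearGroup (Fin n) k)))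
        (φ (x * y))
      = (QuotientGroup.mk' (Subgroup.center (Matrix.SpecialLinearGroup (Fin n) k))) (φ x)
        * (QuotientGroup.mk' (Subgroup.center (Matrix.SpecialLinearGroup (Fin n) k))) (φ y) := by
    intro x y
    rw [← map_mul]
    exact qeq (h.mul x y)
  -- first relation
  have r1 : ∀ (i j l : Fin n) (hij : i ≠ j) (hjl : j ≠ l) (hil : i ≠ l),
      p i j hij * p j l hjl = p i l hil := by
    intro i j l hij hjl hil
    have e1 := congrArg (fun x => (QuotientGroup.mk' (Subgroup.center
      (Matrix.SpecialLinearGroup (Fin n) k))) (φ x)) (chev1 hij hjl hil (1 : k) 1)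
    simp only [hm, hq, mul_one] at e1
    rw [← map_mul, chev1 hij hjl hil, map_mul, map_mul] at e1
    exact tv_qinj hil (mul_right_cancel e1)
  -- second relation
  have r2 : ∀ (i j : Fin n) (hij : i ≠ j), p i j hij * p j i hij.symm = 1 := by
    intro i j hij
    have e1 := congrArg (fun x => (QuotientGroup.mk' (Subgroup.center
      (Matrix.SpecialLinearGroup (Fin n) k))) (φ x)) (braid_one (k := k) hij)
    simp only [hm, hq, mul_one] at e1
    rw [← map_mul, ← map_mul, ← map_mul, ← map_mul] at e1
    obtain ⟨z, hz, e2⟩ := of_qeq e1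
    obtain ⟨ρ, -, hρ⟩ := center_scalar hz
    apply braid_rel hij _ _ ρ (hp i j hij) (hp j i hij.symm)
    rw [e2, Matrix.SpecialLinearGroup.coe_mul z, hρ, Matrix.smul_mul, one_mul]
  let i0 : Fin n := ⟨0, hn⟩
  let a : Fin n → k := fun i => if hi : i ≠ i0 then p i i0 hi else 1
  have ha0 : a i0 = 1 := by
    show (if hi : i0 ≠ i0 then p i0 i0 hi else 1) = 1
    rw [dif_neg (by simp)]
  have ha1 : ∀ i (hi : i ≠ i0), a i = p i i0 hi := by
    intro i hi
    show (if hi : i ≠ i0 then p i i0 hi else 1) = _
    rw [dif_pos hi]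
  have ha : ∀ i, a i ≠ 0 := by
    intro i
    by_cases hi : i = i0
    · rw [hi, ha0]; exact one_ne_zero
    · rw [ha1 i hi]; exact hp i i0 hi
  have har : ∀ (i j : Fin n) (hij : i ≠ j), p i j hij * a j = a i := by
    intro i j hij
    by_cases hj : j = i0
    · subst hj
      rw [ha0, mul_one, ha1 i hij]
    · by_cases hi : i = i0
      · subst hi
        rw [ha0, ha1 j hj]
        exact r2 _ _ hij
      · rw [ha1 i hi, ha1 j hj]
        exact r1 i j i0 hij hj hi
  refine ⟨diagonal a, ?_, fun x => ?_⟩
  · rw [Matrix.det_diagonal]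
    exact prod_ne_iff.mpr ha
  · refine sl_ind (fun x => ∃ z ∈ Subgroup.center (Matrix.SpecialLinearGroup (Fin n) k),
      ((z * φ x : Matrix.SpecialLinearGroup (Fin n) k) : Matrix (Fin n) (Fin n) k) * diagonal a
        = diagonal a * (x : Matrix (Fin n) (Fin n) k)) ?_ ?_ ?_ x
    · intro D hD
      obtain ⟨u, hu, e1⟩ := exists_th D hD
      obtain ⟨z, hz, e2⟩ := hN u hu
      refine ⟨z⁻¹, inv_mem hz, ?_⟩
      rw [← e1, e2, inv_mul_cancel_left, e1]
      show diagonal D * diagonal a = diagonal a * diagonal D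
      rw [Matrix.diagonal_mul_diagonal, Matrix.diagonal_mul_diagonal]
      congr 1
      funext i
      exact mul_comm _ _
    · intro i j hij s
      obtain ⟨z, hz, e1⟩ := hP i j hij s
      refine ⟨z⁻¹, inv_mem hz, ?_⟩
      rw [e1, inv_mul_cancel_left, SpecialLinearGroup.transvection_coe,
        SpecialLinearGroup.transvection_coe, add_mul, mul_add, one_mul, mul_one]
      congr 1
      ext x y
      rw [Matrix.diagonal_mul, Matrix.mul_diagonal, Matrix.single_apply, Matrix.single_apply]
      by_cases hxy : i = x ∧ j = y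
      · rw [if_pos hxy, if_pos hxy, ← hxy.1, ← hxy.2, ← har i j hij]
        ring
      · rw [if_neg hxy, if_neg hxy, zero_mul, mul_zero]
    · rintro A B ⟨z, hz, e1⟩ ⟨z', hz', e2⟩
      obtain ⟨z'', hz'', e3⟩ := h.mul A B
      refine ⟨z * z' * z''⁻¹, mul_mem (mul_mem hz hz') (inv_mem hz''), ?_⟩
      have hc' := Subgroup.mem_center_iff.mp hz'
      have e4 : z * z' * z''⁻¹ * φ (A * B) = (z * φ A) * (z' * φ B) := by
        rw [e3]
        calc z * z' * z''⁻¹ * (z'' * (φ A * φ B)) = z * (z' * φ A) * φ B := by group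
          _ = z * (φ A * z') * φ B := by rw [← hc']
          _ = _ := by group
      rw [e4, Matrix.SpecialLinearGroup.coe_mul, mul_assoc, e2, ← mul_assoc, e1, mul_assoc,
        ← Matrix.SpecialLinearGroup.coe_mul]

end Main

end Pool.Agent.Helper14.RG
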