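import Pool.Agent.Helper14.RG.StdChart

namespace Pool.Agent.Helper14.RG

open Matrix MvPolynomial

section Th

variable {k : Type*} [Field k] {m : ℕ}

lemma th_det (u : Fin m → k) (hu : ∏ i, u i ≠ 0) :
    (diagonal (fun i => u i ^ m / ∏ j, u j)).det = 1 := by
  rw [Matrix.det_diagonal, Finset.prod_div_distrib, Finset.prod_pow, Finset.prod_const,
    Finset.card_univ, Fintype.card_fin, div_self (pow_ne_zero _ hu)]

open Classical in
/-- the parametrization of the diagonal torus -/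
noncomputable def th (u : Fin m → k) : Matrix.SpecialLinearGroup (Fin m) k :=
  if h : ∏ i, u i ≠ 0 then ⟨diagonal (fun i => u i ^ m / ∏ j, u j), th_det u h⟩ else 1

lemma th_coe (u : Fin m → k) (hu : ∏ i, u i ≠ 0) :
    (th u : Matrix (Fin m) (Fin m) k) = diagonal (fun i => u i ^ m / ∏ j, u j) := by
  unfold th
  rw [dif_pos hu]

lemma prod_mul_ne {u v : Fin m → k} (hu : ∏ i, u i ≠ 0) (hv : ∏ i, v i ≠ 0) :
    ∏ i, (u * v) i ≠ 0 := by
  simp only [Pi.mul_apply]
  rw [Finset.prod_mul_distrib]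
  exact mul_ne_zero hu hv

lemma prod_ne_iff {u : Fin m → k} : ∏ i, u i ≠ 0 ↔ ∀ i, u i ≠ 0 := by
  rw [Finset.prod_ne_zero_iff]
  simp

lemma th_mul (u v : Fin m → k) (hu : ∏ i, u i ≠ 0) (hv : ∏ i, v i ≠ 0) :
    th (u * v) = th u * th v := by
  apply Subtype.ext
  show (th (u * v) : Matrix (Fin m) (Fin m) k) = ((th u * th v :
    Matrix.SpecialLinearGroup (Fin m) k) : Matrix (Fin m) (Fin m) k)
  rw [Matrix.SpecialLinearGroup.coe_mul, th_coe _ (prod_mul_ne hu hv), th_coe _ hu, th_coe _ hv,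
    Matrix.diagonal_mul_diagonal]
  congr 1
  funext i
  simp only [Pi.mul_apply]
  rw [Finset.prod_mul_distrib, mul_pow]
  field_simp

lemma th_one : th (1 : Fin m → k) = 1 := by
  apply Subtype.ext
  show (th (1 : Fin m → k) : Matrix (Fin m) (Fin m) k) = _
  rw [th_coe _ (by simp)]
  simp

lemma prod_pow_ne {u : Fin m → k} (hu : ∏ i, u i ≠ 0) (N : ℕ) : ∏ i, (u ^ N) i ≠ 0 := by
  simp only [Pi.pow_apply]
  rw [Finset.prod_pow]
  exact pow_ne_zero _ hu

lemma th_pow (u : Fin m → k) (hu : ∏ i, u i ≠ 0) (N : ℕ) : th (u ^ N) = th u ^ N := by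
  induction N with
  | zero => rw [pow_zero, pow_zero, th_one]
  | succ N ih => rw [pow_succ, th_mul _ _ (prod_pow_ne hu N) hu, ih, pow_succ]

lemma th_reg : slAlg k m ≤ RegAlong (∏ i, X i : MvPolynomial (Fin m) k) th := by
  apply slAlg_le
  intro i j
  refine ⟨if i = j then X i ^ m else 0, 1, fun Y hY => ?_⟩
  have hprod : eval Y (∏ i, X i : MvPolynomial (Fin m) k) = ∏ i, Y i := by
    rw [map_prod]
    exact Finset.prod_congr rfl fun i _ => eval_X _
  rw [hprod] at hY ⊢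
  show (th Y : Matrix (Fin m) (Fin m) k) i j * (∏ i, Y i) ^ 1 = _
  rw [th_coe _ hY, Matrix.diagonal_apply, pow_one]
  by_cases hij : i = j
  · rw [if_pos hij, if_pos hij, map_pow, eval_X, div_mul_cancel₀ _ hY]
  · rw [if_neg hij, if_neg hij, map_zero, zero_mul]

lemma laurent {F : Matrix.SpecialLinearGroup (Fin m) k → k} (hF : F ∈ slAlg k m) :
    ∃ (P : MvPolynomial (Fin m) k) (N : ℕ), ∀ u : Fin m → k, ∏ i, u i ≠ 0 →
      F (th u) * (∏ i, u i) ^ N = eval u P := by
  obtain ⟨P, N, h⟩ := th_reg hF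
  have hprod : ∀ Y : Fin m → k, eval Y (∏ i, X i : MvPolynomial (Fin m) k) = ∏ i, Y i := by
    intro Y
    rw [map_prod]
    exact Finset.prod_congr rfl fun i _ => eval_X _
  refine ⟨P, N, fun u hu => ?_⟩
  have := h u (by rw [hprod]; exact hu)
  rw [hprod] at this
  exact this

/-- equality of polynomials on the torus -/
lemma eq_of_torus [Infinite k] {P Q : MvPolynomial (Fin m) k}
    (h : ∀ u : Fin m → k, ∏ i, u i ≠ 0 → eval u P = eval u Q) : P = Q := by
  have hprod : ∀ Y : Fin m → k, eval Y (∏ i, X i : MvPolynomial (Fin m) k) = ∏ i, Y i := by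
    intro Y
    rw [map_prod]
    exact Finset.prod_congr rfl fun i _ => eval_X _
  have h1 : (P - Q) * (∏ i, X i) = 0 := by
    apply MvPolynomial.funext
    intro u
    rw [map_mul, map_sub, map_zero, hprod]
    by_cases hu : ∏ i, u i = 0
    · rw [hu, mul_zero]
    · rw [h u hu, sub_self, zero_mul]
  have h2 : (∏ i, X i : MvPolynomial (Fin m) k) ≠ 0 :=
    Finset.prod_ne_zero_iff.mpr fun i _ => X_ne_zero i
  exact sub_eq_zero.mp ((mul_eq_zero.mp h1).resolve_right h2)

/-- A multiplicative Laurent polynomial is a monomial. -/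
lemma monomial_of_mult [Infinite k] (f : (Fin m → k) → k) (P : MvPolynomial (Fin m) k) (N : ℕ)
    (hP : ∀ u : Fin m → k, ∏ i, u i ≠ 0 → f u * (∏ i, u i) ^ N = eval u P)
    (hmul : ∀ u v : Fin m → k, ∏ i, u i ≠ 0 → ∏ i, v i ≠ 0 → f (u * v) = f u * f v)
    (h1 : f 1 ≠ 0) :
    ∃ w : Fin m → ℤ, ∀ u : Fin m → k, ∏ i, u i ≠ 0 → f u = ∏ i, u i ^ w i := by
  have hone : ∏ i, (1 : Fin m → k) i ≠ 0 := by simp
  have hP0 : P ≠ 0 := by
    rintro rfl
    have := hP 1 hone
    rw [map_zero] at this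
    simp at this
    exact h1 this
  obtain ⟨e, he⟩ := MvPolynomial.ne_zero_iff.mp hP0
  refine ⟨fun i => (e i : ℤ) - N, fun v hv => ?_⟩
  have h2 : sc v P = C (eval v P) * P := by
    apply eq_of_torus
    intro u hu
    rw [eval_sc, map_mul, eval_C]
    have e1 := hP (v * u) (prod_mul_ne hv hu)
    have e2 : (fun j => v j * u j) = v * u := rfl
    rw [e2, ← e1, ← hP v hv, ← hP u hu, hmul v u hv hu]
    have e3 : ∏ i, (v * u) i = (∏ i, v i) * ∏ i, u i := by
      simp only [Pi.mul_apply]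
      rw [Finset.prod_mul_distrib]
    rw [e3, mul_pow]
    ring
  have h3 := congrArg (coeff e) h2
  rw [coeff_sc, coeff_C_mul, mul_comm] at h3
  have h4 := mul_right_cancel₀ he h3
  have h5 := hP v hv
  rw [← h4] at h5
  have hvi := prod_ne_iff.mp hv
  have h6 : ∏ i, v i ^ ((e i : ℤ) - N) = (∏ i, v i ^ e i) / (∏ i, v i) ^ N := by
    rw [← Finset.prod_pow, ← Finset.prod_div_distrib]
    refine Finset.prod_congr rfl fun i _ => ?_
    rw [zpow_sub₀ (hvi i), zpow_natCast, zpow_natCast]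
  rw [h6, ← h5, mul_div_cancel_right₀ _ (pow_ne_zero _ hv)]

end Th

end Pool.Agent.Helper14.RG
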