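import Pool.Agent.Helper14.RG.Cls.Torus1
import Pool.Agent.Helper14.RG.Cls.Ind

namespace Pool.Agent.Helper14.RG

open Matrix MvPolynomial

/-- Regular homomorphisms modulo the centres, injective modulo the centres. -/
structure ProjHom {k : Type*} [Field k] {m n : ℕ}
    (φ : Matrix.SpecialLinearGroup (Fin m) k → Matrix.SpecialLinearGroup (Fin n) k) : Prop where
  mul : ∀ x y, ∃ z ∈ Subgroup.center (Matrix.SpecialLinearGroup (Fin n) k),
    φ (x * y) = z * (φ x * φ y)
  cen : ∀ x, φ x ∈ Subgroup.center (Matrix.SpecialLinearGroup (Fin n) k) ↔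
    x ∈ Subgroup.center (Matrix.SpecialLinearGroup (Fin m) k)
  reg : ∀ α β : Fin n → Fin n,
    (fun x => ∏ l, (φ x : Matrix (Fin n) (Fin n) k) (α l) (β l)) ∈ slAlg k m

section Basic

variable {k : Type*} [Field k] {m n : ℕ}

lemma center_pow {z : Matrix.SpecialLinearGroup (Fin n) k}
    (hz : z ∈ Subgroup.center (Matrix.SpecialLinearGroup (Fin n) k)) : z ^ n = 1 := by
  obtain ⟨r, hr, hrz⟩ := center_scalar hz
  apply Subtype.ext
  show ((z ^ n : Matrix.SpecialLinearGroup (Fin n) k) : Matrix (Fin n) (Fin n) k) = _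
  rw [Matrix.SpecialLinearGroup.coe_pow, hrz, smul_pow, one_pow, hr, one_smul,
    Matrix.SpecialLinearGroup.coe_one]

lemma comm_pow {G : Type*} [Group G] {A B z : G} (hz : z ∈ Subgroup.center G)
    (h : A * B = z * (B * A)) (N : ℕ) : A ^ N * B = z ^ N * (B * A ^ N) := by
  induction N with
  | zero => simp
  | succ N ih =>
    have hzc := Subgroup.mem_center_iff.mp (pow_mem hz N)
    calc A ^ (N + 1) * B = A * (A ^ N * B) := by rw [pow_succ', mul_assoc]
      _ = (A * z ^ N) * (B * A ^ N) := by rw [ih]; simp only [mul_assoc]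
      _ = z ^ N * (A * B) * A ^ N := by rw [hzc]; simp only [mul_assoc]
      _ = (z ^ N * z) * (B * (A * A ^ N)) := by rw [h]; simp only [mul_assoc]
      _ = _ := by rw [← pow_succ, ← pow_succ']

namespace ProjHom

variable {φ : Matrix.SpecialLinearGroup (Fin m) k → Matrix.SpecialLinearGroup (Fin n) k}
  (h : ProjHom φ)

include h in
lemma pow (x : Matrix.SpecialLinearGroup (Fin m) k) (N : ℕ) :
    ∃ z ∈ Subgroup.center (Matrix.SpecialLinearGroup (Fin n) k), φ (x ^ N) = z * φ x ^ N := by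
  induction N with
  | zero =>
    refine ⟨φ 1, (h.cen 1).mpr (one_mem _), ?_⟩
    rw [pow_zero, pow_zero, mul_one]
  | succ N ih =>
    obtain ⟨z, hz, e1⟩ := ih
    obtain ⟨z', hz', e2⟩ := h.mul (x ^ N) x
    refine ⟨z' * z, mul_mem hz' hz, ?_⟩
    rw [pow_succ, e2, e1, pow_succ]
    simp only [mul_assoc]

include h in
lemma comm_th [IsAlgClosed k] (hn : 0 < n) (u v : Fin m → k) (hu : ∏ i, u i ≠ 0)
    (hv : ∏ i, v i ≠ 0) : φ (th u) * φ (th v) = φ (th v) * φ (th u) := by
  choose u' hu' using fun i => IsAlgClosed.exists_pow_nat_eq (u i) hn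
  have hu'' : ∏ i, u' i ≠ 0 := by
    rw [prod_ne_iff] at hu ⊢
    intro i h0
    apply hu i
    rw [← hu' i, h0, zero_pow hn.ne']
  have hpw : u = u' ^ n := by
    funext i
    exact (hu' i).symm
  obtain ⟨z1, hz1, e1⟩ := h.mul (th u') (th v)
  obtain ⟨z2, hz2, e2⟩ := h.mul (th v) (th u')
  have hcm : th u' * th v = th v * th u' := by
    rw [← th_mul _ _ hu'' hv, ← th_mul _ _ hv hu'', mul_comm]
  have e3 : φ (th u') * φ (th v) = (z1⁻¹ * z2) * (φ (th v) * φ (th u')) := by
    rw [hcm, e2] at e1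
    rw [mul_assoc, e1, inv_mul_cancel_left]
  have e4 := comm_pow (mul_mem (inv_mem hz1) hz2) e3 n
  rw [center_pow (mul_mem (inv_mem hz1) hz2), one_mul] at e4
  obtain ⟨z3, hz3, e5⟩ := h.pow (th u') n
  rw [← th_pow _ hu'', ← hpw] at e5
  have hc := Subgroup.mem_center_iff.mp hz3
  rw [e5]
  calc z3 * φ (th u') ^ n * φ (th v) = z3 * (φ (th u') ^ n * φ (th v)) := by rw [mul_assoc]
    _ = z3 * (φ (th v) * φ (th u') ^ n) := by rw [e4]
    _ = (z3 * φ (th v)) * φ (th u') ^ n := by rw [mul_assoc]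
    _ = _ := by rw [← hc, mul_assoc]

include h in
/-- regularity after a linear change of coordinates -/
lemma reg_lin (A B : Matrix (Fin n) (Fin n) k) (α β : Fin n → Fin n) :
    (fun x => ∏ l, (A * (φ x : Matrix (Fin n) (Fin n) k) * B) (α l) (β l)) ∈ slAlg k m := by
  classical
  have h1 : (fun x => ∏ l, (A * (φ x : Matrix (Fin n) (Fin n) k) * B) (α l) (β l))
      = ∑ p ∈ Fintype.piFinset (fun _ : Fin n => (Finset.univ : Finset (Fin n × Fin n))),
        (∏ l, A (α l) (p l).1 * B (p l).2 (β l)) • (fun x => ∏ l,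
          (φ x : Matrix (Fin n) (Fin n) k) (p l).1 (p l).2) := by
    funext x
    have h2 : ∀ l, (A * (φ x : Matrix (Fin n) (Fin n) k) * B) (α l) (β l)
        = ∑ q ∈ (Finset.univ : Finset (Fin n × Fin n)), A (α l) q.1
          * (φ x : Matrix (Fin n) (Fin n) k) q.1 q.2 * B q.2 (β l) := by
      intro l
      rw [Matrix.mul_apply, Fintype.sum_prod_type, Finset.sum_comm]
      refine Finset.sum_congr rfl fun j _ => ?_
      rw [Matrix.mul_apply, Finset.sum_mul]
    simp only [h2]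
    rw [Finset.prod_univ_sum, Finset.sum_apply]
    refine Finset.sum_congr rfl fun p _ => ?_
    rw [Pi.smul_apply, smul_eq_mul, ← Finset.prod_mul_distrib]
    refine Finset.prod_congr rfl fun l _ => ?_
    ring
  rw [h1]
  exact sum_mem fun p _ => Subalgebra.smul_mem _ (h.reg _ _) _

end ProjHom

end Basic

lemma infinite_tors {k : Type*} [Field k] [IsAlgClosed k] [CharZero k] :
    {ζ : k | ∃ N : ℕ, 0 < N ∧ ζ ^ N = 1}.Infinite := by
  have h1 : ∀ N : ℕ, ∃ ζ : k, IsPrimitiveRoot ζ (N + 1) := by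
    intro N
    have : NeZero ((N + 1 : ℕ) : k) := ⟨by exact_mod_cast Nat.succ_ne_zero N⟩
    exact HasEnoughRootsOfUnity.exists_primitiveRoot k (N + 1)
  choose f hf using h1
  refine Set.infinite_of_injective_forall_mem (f := f) ?_ ?_
  · intro a b hab
    have h2 := (hf a).eq_orderOf
    have h3 := (hf b).eq_orderOf
    rw [hab, ← h3] at h2
    omega
  · intro N
    exact ⟨N + 1, Nat.succ_pos N, (hf N).pow_eq_one⟩

section Diag

variable {k : Type*} [Field k] [IsAlgClosed k] [CharZero k] {m n : ℕ}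
  {φ : Matrix.SpecialLinearGroup (Fin m) k → Matrix.SpecialLinearGroup (Fin n) k}

/-- simultaneous diagonalization of the image of the torus -/
theorem ProjHom.exists_diag (h : ProjHom φ) (hn : 0 < n) :
    ∃ c : Matrix (Fin n) (Fin n) k, c.det ≠ 0 ∧ ∀ u : Fin m → k, ∏ i, u i ≠ 0 →
      ∀ l r, l ≠ r → (c * (φ (th u) : Matrix (Fin n) (Fin n) k) * c⁻¹) l r = 0 := by
  classical
  let S : Set (Matrix (Fin n) (Fin n) k) := {X | ∃ u : Fin m → k, ∏ i, u i ≠ 0 ∧
    (∃ N : ℕ, 0 < N ∧ u ^ N = 1) ∧ X = (φ (th u) : Matrix (Fin n) (Fin n) k)}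
  obtain ⟨b, hbS, hspan, hlin⟩ := exists_linearIndependent k S
  have hfin : b.Finite := hlin.setFinite
  haveI : Fintype b := hfin.fintype
  have hb : ∀ γ : b, ∃ (N : ℕ) (r : k), 0 < N ∧ r ≠ 0 ∧
      (γ.1 : Matrix (Fin n) (Fin n) k) ^ N = r • (1 : Matrix (Fin n) (Fin n) k) := by
    rintro ⟨X, hX⟩
    obtain ⟨u, hu, ⟨N, hN, huN⟩, rfl⟩ := hbS hX
    obtain ⟨z, hz, e1⟩ := h.pow (th u) N
    rw [← th_pow u hu, huN, th_one] at e1
    have e2 : φ (th u) ^ N ∈ Subgroup.center (Matrix.SpecialLinearGroup (Fin n) k) := by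
      have : φ (th u) ^ N = z⁻¹ * φ 1 := by rw [e1, inv_mul_cancel_left]
      rw [this]
      exact mul_mem (inv_mem hz) ((h.cen 1).mpr (one_mem _))
    obtain ⟨r, hr, hr2⟩ := center_scalar e2
    refine ⟨N, r, hN, ?_, ?_⟩
    · rintro rfl
      rw [zero_pow hn.ne'] at hr
      exact zero_ne_one hr
    · rw [← Matrix.SpecialLinearGroup.coe_pow]; exact hr2
  choose Nb rb hNb hrb hpw using hb
  let M : ℕ := ∏ γ, Nb γ
  have hM : 0 < M := Finset.prod_pos fun γ _ => hNb γ
  obtain ⟨c, hc, χ, hχ⟩ := exists_simul_diag (fun γ : b => γ.1) (fun γ γ' => by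
      obtain ⟨u, hu, -, e1⟩ := hbS γ.2
      obtain ⟨v, hv, -, e2⟩ := hbS γ'.2
      rw [e1, e2, ← Matrix.SpecialLinearGroup.coe_mul, h.comm_th hn u v hu hv,
        Matrix.SpecialLinearGroup.coe_mul]) M
    (by rw [Nat.cast_ne_zero]; exact hM.ne') (fun γ => rb γ ^ (M / Nb γ))
    (fun γ => pow_ne_zero _ (hrb γ)) (fun γ => by
      have hdvd : Nb γ ∣ M := Finset.dvd_prod_of_mem _ (Finset.mem_univ γ)
      obtain ⟨q, hq⟩ := hdvd
      have hq' : M / Nb γ = q := by rw [hq, Nat.mul_div_cancel_left _ (hNb γ)]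
      rw [hq', hq, pow_mul, hpw, smul_pow, one_pow])
  have hcdet : c.det ≠ 0 := ((Matrix.isUnit_iff_isUnit_det _).mp hc).ne_zero
  have hcu : IsUnit c.det := isUnit_iff_ne_zero.mpr hcdet
  -- everything in the span is diagonalized
  let V : Submodule k (Matrix (Fin n) (Fin n) k) :=
    { carrier := {X | ∀ l r, l ≠ r → (c * X * c⁻¹) l r = 0}
      add_mem' := by
        intro X Y hX hY l r hlr
        rw [mul_add, add_mul, Matrix.add_apply, hX l r hlr, hY l r hlr, add_zero]
      zero_mem' := by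
        intro l r _
        rw [mul_zero, zero_mul, Matrix.zero_apply]
      smul_mem' := by
        intro a X hX l r hlr
        rw [Matrix.mul_smul, Matrix.smul_mul, Matrix.smul_apply, hX l r hlr, smul_zero] }
  have hbV : Submodule.span k b ≤ V := by
    rw [Submodule.span_le]
    intro X hX l r hlr
    have h1 := hχ ⟨X, hX⟩
    have h2 : c * X * c⁻¹ = diagonal (χ ⟨X, hX⟩) := by
      rw [h1, mul_assoc, Matrix.mul_nonsing_inv _ hcu, mul_one]
    rw [h2, Matrix.diagonal_apply_ne _ hlr]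
  have hSV : S ⊆ V := by
    intro X hX
    apply hbV
    rw [hspan]
    exact Submodule.subset_span hX
  refine ⟨c, hcdet, fun u hu l r hlr => ?_⟩
  -- density of the torsion points
  obtain ⟨P, N, hP⟩ := laurent (h.reg_lin c c⁻¹ (fun _ => l) (fun _ => r))
  have hP0 : P = 0 := by
    apply MvPolynomial.funext_set (fun _ : Fin m => {ζ : k | ∃ N : ℕ, 0 < N ∧ ζ ^ N = 1})
      (fun _ => infinite_tors)
    intro v hv
    rw [map_zero]
    have hv' : ∀ i, ∃ N : ℕ, 0 < N ∧ v i ^ N = 1 := fun i => hv i (Set.mem_univ i)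
    choose Nv hNv hvN using hv'
    have hvne : ∏ i, v i ≠ 0 := by
      rw [prod_ne_iff]
      intro i h0
      have := hvN i
      rw [h0, zero_pow (hNv i).ne'] at this
      exact zero_ne_one this
    have hvpow : v ^ (∏ i, Nv i) = 1 := by
      funext i
      rw [Pi.pow_apply, Pi.one_apply]
      obtain ⟨q, hq⟩ := Finset.dvd_prod_of_mem Nv (Finset.mem_univ i)
      rw [hq, pow_mul, hvN, one_pow]
    have h1 := hSV ⟨v, hvne, ⟨∏ i, Nv i, Finset.prod_pos fun i _ => hNv i, hvpow⟩, rfl⟩ l r hlr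
    rw [← hP v hvne]
    show (∏ _l : Fin n, (c * (φ (th v) : Matrix (Fin n) (Fin n) k) * c⁻¹) l r) * _ = 0
    rw [h1, Finset.prod_const, Finset.card_univ, Fintype.card_fin, zero_pow hn.ne', zero_mul]
  have h2 := hP u hu
  rw [hP0, map_zero] at h2
  have h3 := (mul_eq_zero.mp h2).resolve_right (pow_ne_zero _ hu)
  have h4 : (∏ _l : Fin n, (c * (φ (th u) : Matrix (Fin n) (Fin n) k) * c⁻¹) l r) = 0 := h3
  rw [Finset.prod_const, Finset.card_univ, Fintype.card_fin] at h4
  exact pow_eq_zero_iff hn.ne' |>.mp h4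

end Diag

end Pool.Agent.Helper14.RG
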