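import Pool.Agent.Helper14.RG.Cls.Torus2
import Pool.Agent.Helper14.RG.Cls.Comb

namespace Pool.Agent.Helper14.RG

open Matrix MvPolynomial

section Indep

variable {k : Type*} [Field k] [CharZero k] {m n : ℕ}

lemma eval_shift (w : Fin m → ℤ) (N : ℕ) (hN : ∀ i, 0 ≤ w i + N) (u : Fin m → k)
    (hu : ∏ i, u i ≠ 0) :
    eval u (monomial (Finsupp.equivFunOnFinite.symm (fun i => (w i + N).toNat)) (1 : k))
      = (∏ i, u i ^ w i) * (∏ i, u i) ^ N := by
  rw [eval_monomial, one_mul, Finsupp.prod_fintype _ _ (fun i => pow_zero _), ← Finset.prod_pow,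
    ← Finset.prod_mul_distrib]
  refine Finset.prod_congr rfl fun i _ => ?_
  have hui := prod_ne_iff.mp hu i
  have h1 : (Finsupp.equivFunOnFinite.symm (fun i => (w i + N).toNat) : Fin m →₀ ℕ) i
      = (w i + N).toNat := rfl
  rw [h1, ← zpow_natCast (u i) (w i + N).toNat, Int.toNat_of_nonneg (hN i), zpow_add₀ hui,
    zpow_natCast]

/-- independence of Laurent monomials -/
lemma indep (w w' : Fin n → Fin m → ℤ)
    (h : ∀ u : Fin m → k, ∏ i, u i ≠ 0 → ∑ l, ∏ i, u i ^ w l i = ∑ l, ∏ i, u i ^ w' l i) (l : Fin n) :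
    ∃ l', w' l = w l' := by
  classical
  let N : ℕ := ∑ l, ∑ i, ((w l i).natAbs + (w' l i).natAbs)
  have hN0 : ∀ l i, (w l i).natAbs + (w' l i).natAbs ≤ N := by
    intro l i
    calc (w l i).natAbs + (w' l i).natAbs ≤ ∑ i, ((w l i).natAbs + (w' l i).natAbs) :=
          Finset.single_le_sum (f := fun i => (w l i).natAbs + (w' l i).natAbs)
            (fun _ _ => Nat.zero_le _) (Finset.mem_univ i)
      _ ≤ N := Finset.single_le_sum (f := fun l => ∑ i, ((w l i).natAbs + (w' l i).natAbs))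
            (fun _ _ => Nat.zero_le _) (Finset.mem_univ l)
  have hN : ∀ l i, 0 ≤ w l i + N := by
    intro l i
    have := hN0 l i
    omega
  have hN' : ∀ l i, 0 ≤ w' l i + N := by
    intro l i
    have := hN0 l i
    omega
  let e : (Fin m → ℤ) → (Fin m →₀ ℕ) := fun v =>
    Finsupp.equivFunOnFinite.symm (fun i => (v i + N).toNat)
  have he : ∀ v v' : Fin m → ℤ, (∀ i, 0 ≤ v i + N) → (∀ i, 0 ≤ v' i + N) → e v = e v' → v = v' := by
    intro v v' hv hv' hvv
    funext i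
    have h1 := DFunLike.congr_fun hvv i
    have h2 : (v i + N).toNat = (v' i + N).toNat := h1
    have := hv i
    have := hv' i
    omega
  have hpoly : (∑ l, monomial (e (w l)) (1 : k)) = ∑ l, monomial (e (w' l)) (1 : k) := by
    apply eq_of_torus
    intro u hu
    rw [map_sum, map_sum]
    have e1 : ∀ l, eval u (monomial (e (w l)) (1 : k)) = (∏ i, u i ^ w l i) * (∏ i, u i) ^ N :=
      fun l => eval_shift (w l) N (hN l) u hu
    have e2 : ∀ l, eval u (monomial (e (w' l)) (1 : k)) = (∏ i, u i ^ w' l i) * (∏ i, u i) ^ N :=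
      fun l => eval_shift (w' l) N (hN' l) u hu
    simp only [e1, e2]
    rw [← Finset.sum_mul, ← Finset.sum_mul, h u hu]
  have hc := congrArg (coeff (e (w' l))) hpoly
  simp only [coeff_sum, coeff_monomial, Finset.sum_boole] at hc
  by_contra hcon
  push Not at hcon
  have h1 : (Finset.univ.filter (fun x => e (w x) = e (w' l))) = ∅ := by
    rw [Finset.filter_eq_empty_iff]
    intro x _ hx
    exact hcon x (he _ _ (hN x) (hN' l) hx).symm
  rw [h1, Finset.card_empty, Nat.cast_zero] at hc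
  have h2 : l ∈ (Finset.univ.filter (fun x => e (w' x) = e (w' l))) :=
    Finset.mem_filter.mpr ⟨Finset.mem_univ _, rfl⟩
  have h3 : (Finset.univ.filter (fun x => e (w' x) = e (w' l))).card = 0 := by
    exact_mod_cast hc.symm
  rw [Finset.card_eq_zero] at h3
  rw [h3] at h2
  exact absurd h2 (Finset.notMem_empty l)

lemma two_zpow {z : ℤ} (h : (2 : k) ^ z = 1) : z = 0 := by
  by_contra hne
  have h1 : (2 : k) ^ z.natAbs = 1 := by
    rcases Int.natAbs_eq z with h2 | h2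
    · rw [h2, zpow_natCast] at h; exact h
    · rw [h2, _root_.zpow_neg, zpow_natCast, inv_eq_one] at h; exact h
  have h2 : (2 ^ z.natAbs : ℕ) = 1 := by exact_mod_cast h1
  have h3 : z.natAbs = 0 := by
    by_contra h4
    have := Nat.one_lt_two_pow h4
    omega
  exact hne (Int.natAbs_eq_zero.mp h3)

end Indep

section WeylEl

variable {k : Type*} [Field k] [IsAlgClosed k] {m : ℕ}

lemma exists_W (hm : 0 < m) (s : Equiv.Perm (Fin m)) : ∃ W : Matrix.SpecialLinearGroup (Fin m) k,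
    ∀ u : Fin m → k, ∏ i, u i ≠ 0 → W * th u = th (u ∘ s) * W := by
  let W0 : Matrix (Fin m) (Fin m) k := (1 : Matrix (Fin m) (Fin m) k).submatrix s id
  have hW0 : W0.det ≠ 0 := by
    show ((1 : Matrix (Fin m) (Fin m) k).submatrix s id).det ≠ 0
    rw [Matrix.det_permute, Matrix.det_one, mul_one]
    rcases Int.units_eq_one_or (Equiv.Perm.sign s) with h2 | h2 <;> rw [h2] <;> simp
  obtain ⟨r, hr⟩ := IsAlgClosed.exists_pow_nat_eq (W0.det)⁻¹ hm
  have hdet : (r • W0).det = 1 := by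
    rw [Matrix.det_smul, Fintype.card_fin, hr, inv_mul_cancel₀ hW0]
  refine ⟨⟨r • W0, hdet⟩, fun u hu => ?_⟩
  have hprod : ∏ i, (u ∘ s) i = ∏ i, u i := Equiv.prod_comp s u
  have hus : ∏ i, (u ∘ s) i ≠ 0 := by rw [hprod]; exact hu
  apply Subtype.ext
  show ((⟨r • W0, hdet⟩ * th u : Matrix.SpecialLinearGroup (Fin m) k) : Matrix (Fin m) (Fin m) k)
    = ((th (u ∘ s) * ⟨r • W0, hdet⟩ : Matrix.SpecialLinearGroup (Fin m) k) :
      Matrix (Fin m) (Fin m) k)
  rw [Matrix.SpecialLinearGroup.coe_mul, Matrix.SpecialLinearGroup.coe_mul, th_coe u hu,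
    th_coe _ hus, hprod]
  show r • W0 * _ = _ * r • W0
  rw [Matrix.smul_mul, Matrix.mul_smul]
  congr 1
  ext i j
  rw [Matrix.mul_diagonal, Matrix.diagonal_mul]
  show (1 : Matrix (Fin m) (Fin m) k) (s i) j * _ = _ * (1 : Matrix (Fin m) (Fin m) k) (s i) j
  rw [Matrix.one_apply]
  by_cases hij : s i = j
  · rw [if_pos hij, one_mul, mul_one, ← hij]
    rfl
  · rw [if_neg hij, zero_mul, mul_zero]

end WeylEl

section TorusData

variable {k : Type*} [Field k] [IsAlgClosed k] [CharZero k] {m n : ℕ}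
  {φ : Matrix.SpecialLinearGroup (Fin m) k → Matrix.SpecialLinearGroup (Fin n) k}
  (h : ProjHom φ) (c : Matrix (Fin n) (Fin n) k) (hc : c.det ≠ 0)
  (hoff : ∀ u : Fin m → k, ∏ i, u i ≠ 0 →
      ∀ l r, l ≠ r → (c * (φ (th u) : Matrix (Fin n) (Fin n) k) * c⁻¹) l r = 0)

/-- the diagonal entries -/
noncomputable def DD (φ : Matrix.SpecialLinearGroup (Fin m) k → Matrix.SpecialLinearGroup (Fin n) k)
    (c : Matrix (Fin n) (Fin n) k) (l : Fin n) (u : Fin m → k) : k :=
  (c * (φ (th u) : Matrix (Fin n) (Fin n) k) * c⁻¹) l l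

include hoff in
lemma DD_diag (u : Fin m → k) (hu : ∏ i, u i ≠ 0) :
    c * (φ (th u) : Matrix (Fin n) (Fin n) k) * c⁻¹ = diagonal (fun l => DD φ c l u) := by
  ext l r
  by_cases hlr : l = r
  · subst hlr; rw [Matrix.diagonal_apply_eq]; rfl
  · rw [Matrix.diagonal_apply_ne _ hlr]; exact hoff u hu l r hlr

include hc hoff in
lemma DD_prod (u : Fin m → k) (hu : ∏ i, u i ≠ 0) : ∏ l, DD φ c l u = 1 := by
  have h1 := congrArg Matrix.det (DD_diag c hoff u hu)
  rw [Matrix.det_diagonal, Matrix.det_mul, Matrix.det_mul, (φ (th u)).2, mul_one,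
    Matrix.det_nonsing_inv, Ring.inverse_eq_inv', mul_inv_cancel₀ hc] at h1
  exact h1.symm

include hc hoff in
lemma DD_ne (u : Fin m → k) (hu : ∏ i, u i ≠ 0) (l : Fin n) : DD φ c l u ≠ 0 := by
  have h1 := DD_prod c hc hoff u hu
  intro h0
  rw [Finset.prod_eq_zero (f := fun l => DD φ c l u) (Finset.mem_univ l) h0] at h1
  exact zero_ne_one h1

include h hc hoff in
lemma DD_mul (u v : Fin m → k) (hu : ∏ i, u i ≠ 0) (hv : ∏ i, v i ≠ 0) :
    ∃ r : k, r ^ n = 1 ∧ ∀ l, DD φ c l (u * v) = r * (DD φ c l u * DD φ c l v) := by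
  obtain ⟨z, hz, e1⟩ := h.mul (th u) (th v)
  obtain ⟨r, hr, hr2⟩ := center_scalar hz
  rw [← th_mul u v hu hv] at e1
  refine ⟨r, hr, fun l => ?_⟩
  have hcu : IsUnit c.det := isUnit_iff_ne_zero.mpr hc
  have e2 : c * (φ (th (u * v)) : Matrix (Fin n) (Fin n) k) * c⁻¹
      = r • ((c * (φ (th u) : Matrix (Fin n) (Fin n) k) * c⁻¹)
        * (c * (φ (th v) : Matrix (Fin n) (Fin n) k) * c⁻¹)) := by
    rw [e1, Matrix.SpecialLinearGroup.coe_mul, Matrix.SpecialLinearGroup.coe_mul, hr2,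
      Matrix.smul_mul, one_mul, Matrix.mul_smul, Matrix.smul_mul]
    congr 1
    calc c * ((φ (th u) : Matrix (Fin n) (Fin n) k) * (φ (th v) : Matrix (Fin n) (Fin n) k)) * c⁻¹
        = c * (φ (th u) : Matrix (Fin n) (Fin n) k) * 1 * (φ (th v) : Matrix (Fin n) (Fin n) k)
          * c⁻¹ := by rw [mul_one]; simp only [mul_assoc]
      _ = c * (φ (th u) : Matrix (Fin n) (Fin n) k) * (c⁻¹ * c)
          * (φ (th v) : Matrix (Fin n) (Fin n) k) * c⁻¹ := by rw [Matrix.nonsing_inv_mul _ hcu]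
      _ = _ := by simp only [mul_assoc]
  rw [DD_diag c hoff u hu, DD_diag c hoff v hv, Matrix.diagonal_mul_diagonal] at e2
  have e3 := congrFun (congrFun e2 l) l
  rw [Matrix.smul_apply, Matrix.diagonal_apply_eq, smul_eq_mul] at e3
  exact e3

include h hc hoff in
lemma exists_w (l : Fin n) : ∃ w : Fin m → ℤ, ∀ u : Fin m → k, ∏ i, u i ≠ 0 →
    DD φ c l u ^ n = ∏ i, u i ^ w i := by
  obtain ⟨P, N, hP⟩ := laurent (h.reg_lin c c⁻¹ (fun _ => l) (fun _ => l))
  refine monomial_of_mult (fun u => DD φ c l u ^ n) P N ?_ ?_ ?_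
  · intro u hu
    have h1 := hP u hu
    rw [← h1]
    congr 1
    rw [Finset.prod_const, Finset.card_univ, Fintype.card_fin]
    rfl
  · intro u v hu hv
    obtain ⟨r, hr, e1⟩ := DD_mul h c hc hoff u v hu hv
    show DD φ c l (u * v) ^ n = DD φ c l u ^ n * DD φ c l v ^ n
    rw [e1, mul_pow, hr, one_mul, mul_pow]
  · exact pow_ne_zero _ (DD_ne c hc hoff 1 (by simp) l)

lemma conj_iter {G : Type*} [Group G] {A A' B z : G} (hz : z ∈ Subgroup.center G)
    (h : B * A = z * (A' * B)) (N : ℕ) : B * A ^ N = z ^ N * (A' ^ N * B) := by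
  induction N with
  | zero => simp
  | succ N ih =>
    have hzc := Subgroup.mem_center_iff.mp hz
    calc B * A ^ (N + 1) = (B * A ^ N) * A := by rw [pow_succ, mul_assoc]
      _ = z ^ N * A' ^ N * (B * A) := by rw [ih]; simp only [mul_assoc]
      _ = z ^ N * (A' ^ N * z) * (A' * B) := by rw [h]; simp only [mul_assoc]
      _ = z ^ N * (z * A' ^ N) * (A' * B) := by rw [hzc]
      _ = _ := by rw [pow_succ z, pow_succ A']; simp only [mul_assoc]

include h in
lemma trace_inv (hm : 0 < m) (s : Equiv.Perm (Fin m)) (u : Fin m → k) (hu : ∏ i, u i ≠ 0) :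
    ((φ (th u) : Matrix (Fin n) (Fin n) k) ^ n).trace
      = ((φ (th (u ∘ s)) : Matrix (Fin n) (Fin n) k) ^ n).trace := by
  obtain ⟨W, hW⟩ := exists_W (k := k) hm s
  obtain ⟨z1, hz1, e1⟩ := h.mul W (th u)
  obtain ⟨z2, hz2, e2⟩ := h.mul (th (u ∘ s)) W
  have e3 : φ W * φ (th u) = (z1⁻¹ * z2) * (φ (th (u ∘ s)) * φ W) := by
    rw [hW u hu, e2] at e1
    rw [mul_assoc, e1, inv_mul_cancel_left]
  have hz := mul_mem (inv_mem hz1) hz2
  have e4 := conj_iter hz e3 n
  rw [center_pow hz, one_mul] at e4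
  have e5 := congrArg (fun x : Matrix.SpecialLinearGroup (Fin n) k =>
    ((x * (φ W)⁻¹ : Matrix.SpecialLinearGroup (Fin n) k) : Matrix (Fin n) (Fin n) k).trace) e4
  simp only [mul_inv_cancel_right] at e5
  rw [Matrix.SpecialLinearGroup.coe_mul, Matrix.trace_mul_comm, ← Matrix.SpecialLinearGroup.coe_mul,
    inv_mul_cancel_left, Matrix.SpecialLinearGroup.coe_pow, Matrix.SpecialLinearGroup.coe_pow] at e5
  exact e5

include hc hoff in
lemma trace_DD (u : Fin m → k) (hu : ∏ i, u i ≠ 0) :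
    ((φ (th u) : Matrix (Fin n) (Fin n) k) ^ n).trace = ∑ l, DD φ c l u ^ n := by
  have hcu : IsUnit c.det := isUnit_iff_ne_zero.mpr hc
  have h1 : c * (φ (th u) : Matrix (Fin n) (Fin n) k) = diagonal (fun l => DD φ c l u) * c := by
    rw [← DD_diag c hoff u hu, mul_assoc, Matrix.nonsing_inv_mul _ hcu, mul_one]
  have h2 : ∀ N : ℕ, c * (φ (th u) : Matrix (Fin n) (Fin n) k) ^ N
      = diagonal (fun l => DD φ c l u) ^ N * c := by
    intro N
    induction N with
    | zero => simp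
    | succ N ih => rw [pow_succ, ← mul_assoc, ih, mul_assoc, h1, ← mul_assoc, ← pow_succ]
  have h3 : (φ (th u) : Matrix (Fin n) (Fin n) k) ^ n
      = c⁻¹ * (diagonal (fun l => DD φ c l u) ^ n * c) := by
    rw [← h2, ← mul_assoc, Matrix.nonsing_inv_mul _ hcu, one_mul]
  rw [h3, Matrix.trace_mul_comm, mul_assoc, Matrix.mul_nonsing_inv _ hcu, mul_one,
    Matrix.diagonal_pow, Matrix.trace_diagonal]
  rfl

end TorusData

end Pool.Agent.Helper14.RG
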