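import Pool.Agent.Helper14.RG.Cls.Torus3

namespace Pool.Agent.Helper14.RG

open Matrix MvPolynomial

section Central

variable {k : Type*} [Field k] {m : ℕ}

lemma th_center_iff (hm : 0 < m) (u : Fin m → k) (hu : ∏ i, u i ≠ 0) :
    th u ∈ Subgroup.center (Matrix.SpecialLinearGroup (Fin m) k) ↔ ∀ i j, u i ^ m = u j ^ m := by
  constructor
  · intro h i j
    obtain ⟨r, -, hr⟩ := center_scalar h
    rw [th_coe u hu, Matrix.smul_one_eq_diagonal] at hr
    have h1 := congrFun (congrFun hr i) i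
    have h2 := congrFun (congrFun hr j) j
    rw [Matrix.diagonal_apply_eq, Matrix.diagonal_apply_eq] at h1 h2
    have h3 : u i ^ m / ∏ i, u i = u j ^ m / ∏ i, u i := h1.trans h2.symm
    field_simp at h3
    exact h3
  · intro h
    obtain ⟨r, hr⟩ : ∃ r : k, ∀ i, u i ^ m / ∏ j, u j = r :=
      ⟨u ⟨0, hm⟩ ^ m / ∏ j, u j, fun i => by rw [h i ⟨0, hm⟩]⟩
    rw [Matrix.SpecialLinearGroup.mem_center_iff]
    refine ⟨r, ?_, ?_⟩
    · have h1 := th_det u hu
      rw [Matrix.det_diagonal] at h1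
      simp only [hr] at h1
      rw [Finset.prod_const, Finset.card_univ] at h1
      exact h1
    · rw [Matrix.scalar_apply, th_coe u hu]
      congr 1
      funext i
      exact (hr i).symm

lemma prod_zpow_sum {x : k} (hx : x ≠ 0) (f : Fin m → ℤ) : ∏ i, x ^ f i = x ^ (∑ i, f i) := by
  have h1 : ∀ S : Finset (Fin m), ∏ i ∈ S, x ^ f i = x ^ (∑ i ∈ S, f i) := by
    intro S
    induction S using Finset.induction_on with
    | empty => simp
    | insert a S ha ih => rw [Finset.prod_insert ha, Finset.sum_insert ha, ih, zpow_add₀ hx]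
  exact h1 Finset.univ

lemma prod_update (i0 : Fin m) (x : k) : ∏ i, (Function.update (1 : Fin m → k) i0 x) i = x := by
  rw [Finset.prod_eq_single i0]
  · rw [Function.update_self]
  · intro j _ hj
    rw [Function.update_of_ne hj]; rfl
  · intro h; exact absurd (Finset.mem_univ _) h

end Central

section TorusData

variable {k : Type*} [Field k] [IsAlgClosed k] [CharZero k] {m n : ℕ}
  {φ : Matrix.SpecialLinearGroup (Fin m) k → Matrix.SpecialLinearGroup (Fin n) k}
  (h : ProjHom φ) (c : Matrix (Fin n) (Fin n) k) (hc : c.det ≠ 0)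
  (hoff : ∀ u : Fin m → k, ∏ i, u i ≠ 0 →
      ∀ l r, l ≠ r → (c * (φ (th u) : Matrix (Fin n) (Fin n) k) * c⁻¹) l r = 0)

include hc hoff in
lemma phi_of_DD (u : Fin m → k) (hu : ∏ i, u i ≠ 0) (r : k) (hr : ∀ l, DD φ c l u = r) :
    (φ (th u) : Matrix (Fin n) (Fin n) k) = r • (1 : Matrix (Fin n) (Fin n) k) := by
  have hcu : IsUnit c.det := isUnit_iff_ne_zero.mpr hc
  have h1 := DD_diag c hoff u hu
  have h2 : diagonal (fun l => DD φ c l u) = r • (1 : Matrix (Fin n) (Fin n) k) := by
    rw [Matrix.smul_one_eq_diagonal]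
    congr 1
    funext l
    exact hr l
  rw [h2] at h1
  calc (φ (th u) : Matrix (Fin n) (Fin n) k)
      = c⁻¹ * (c * (φ (th u) : Matrix (Fin n) (Fin n) k) * c⁻¹) * c := by
        rw [mul_assoc c⁻¹, mul_assoc _ c⁻¹, Matrix.nonsing_inv_mul _ hcu, mul_one, ← mul_assoc,
          Matrix.nonsing_inv_mul _ hcu, one_mul]
    _ = _ := by
        rw [h1, Matrix.mul_smul, Matrix.smul_mul, mul_one, Matrix.nonsing_inv_mul _ hcu]

include h hc hoff in
lemma torus_data (hm : 2 ≤ m) (hn : 0 < n) : ∃ w : Fin n → Fin m → ℤ,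
    (∀ l, ∀ u : Fin m → k, ∏ i, u i ≠ 0 → DD φ c l u ^ n = ∏ i, u i ^ w l i) ∧
    (∀ l, ∑ i, w l i = 0) ∧ m ≤ n ∧
    (n ≤ m → ∃ a b : ℤ, a ≠ b ∧ ∀ i : Fin m, ∃ l, w l = Function.update (fun _ => b) i a) := by
  classical
  choose w hw using exists_w h c hc hoff
  have hm0 : 0 < m := by omega
  let O : Finset (Fin m → ℤ) := Finset.univ.image w
  have hO : ∀ v ∈ O, ∀ s : Equiv.Perm (Fin m), v ∘ s ∈ O := by
    intro v hv s
    obtain ⟨l, -, rfl⟩ := Finset.mem_image.mp hv
    obtain ⟨l', hl'⟩ := indep (k := k) w (fun l => w l ∘ s) (by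
      intro u hu
      have h1 := trace_inv h hm0 s⁻¹ u hu
      have hprod : ∏ i, (u ∘ (s⁻¹ : Equiv.Perm (Fin m))) i = ∏ i, u i := Equiv.prod_comp s⁻¹ u
      have hu' : ∏ i, (u ∘ (s⁻¹ : Equiv.Perm (Fin m))) i ≠ 0 := by rw [hprod]; exact hu
      rw [trace_DD c hc hoff u hu, trace_DD c hc hoff _ hu'] at h1
      simp only [hw _ u hu, hw _ _ hu'] at h1
      rw [h1]
      refine Finset.sum_congr rfl fun l _ => ?_
      rw [← Equiv.prod_comp s (fun i => (u ∘ (s⁻¹ : Equiv.Perm (Fin m))) i ^ w l i)]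
      refine Finset.prod_congr rfl fun i _ => ?_
      show (u (s⁻¹ (s i))) ^ w l (s i) = u i ^ w l (s i)
      have e0 : (s⁻¹ : Equiv.Perm (Fin m)) (s i) = i := s.symm_apply_apply i
      rw [e0]) l
    exact Finset.mem_image.mpr ⟨l', Finset.mem_univ _, hl'.symm⟩
  have hsum : ∀ l, ∑ i, w l i = 0 := by
    intro l
    have hu : ∏ i, (fun _ : Fin m => (2 : k)) i ≠ 0 := by
      rw [prod_ne_iff]; intro _; exact two_ne_zero
    have hu1 : ∏ i, (1 : Fin m → k) i ≠ 0 := by simp
    have h1 : th (fun _ : Fin m => (2 : k)) = th (1 : Fin m → k) := by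
      rw [th_one]
      apply Subtype.ext
      show (th (fun _ : Fin m => (2 : k)) : Matrix (Fin m) (Fin m) k) = 1
      rw [th_coe _ hu, ← Matrix.diagonal_one]
      congr 1
      funext i
      rw [Finset.prod_const, Finset.card_univ, Fintype.card_fin, div_self]
      exact pow_ne_zero _ two_ne_zero
    have h2 : DD φ c l (fun _ : Fin m => (2 : k)) = DD φ c l 1 := by
      unfold DD; rw [h1]
    have h3 := hw l _ hu
    rw [h2, hw l _ hu1] at h3
    simp only [Pi.one_apply, _root_.one_zpow, Finset.prod_const_one] at h3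
    have h4 : ∏ i, (2 : k) ^ w l i = (2 : k) ^ (∑ i, w l i) := by
      exact prod_zpow_sum two_ne_zero _
    rw [h4] at h3
    exact two_zpow h3.symm
  have hne01 : (⟨0, hm0⟩ : Fin m) ≠ ⟨1, by omega⟩ := by
    intro h0
    have := congrArg Fin.val h0
    simp at this
  have hnc : ∃ l i j, w l i ≠ w l j := by
    by_contra hcon
    push Not at hcon
    have hw0 : ∀ l i, w l i = 0 := by
      intro l i
      have h1 := hsum l
      have h2 : ∑ j, w l j = (m : ℤ) * w l i := by
        rw [Finset.sum_congr rfl (fun j _ => hcon l j i), Finset.sum_const, Finset.card_univ,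
          Fintype.card_fin, nsmul_eq_mul]
      rw [h2] at h1
      rcases mul_eq_zero.mp h1 with h3 | h3
      · have : (m : ℤ) ≠ 0 := by omega
        exact absurd h3 this
      · exact h3
    let u : Fin m → k := Function.update 1 ⟨0, hm0⟩ 2
    have hu : ∏ i, u i ≠ 0 := by
      rw [prod_update]; exact two_ne_zero
    have hun := prod_pow_ne hu n
    -- `φ (th u ^ n)` is scalar
    have h1 : φ (th u) ^ n = 1 := by
      apply Subtype.ext
      show ((φ (th u) ^ n : Matrix.SpecialLinearGroup (Fin n) k) : Matrix (Fin n) (Fin n) k) = 1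
      rw [Matrix.SpecialLinearGroup.coe_pow]
      have hcu : IsUnit c.det := isUnit_iff_ne_zero.mpr hc
      have e1 : c * (φ (th u) : Matrix (Fin n) (Fin n) k) = diagonal (fun l => DD φ c l u) * c := by
        rw [← DD_diag c hoff u hu, mul_assoc, Matrix.nonsing_inv_mul _ hcu, mul_one]
      have e2 : ∀ N : ℕ, c * (φ (th u) : Matrix (Fin n) (Fin n) k) ^ N
          = diagonal (fun l => DD φ c l u) ^ N * c := by
        intro N
        induction N with
        | zero => simp
        | succ N ih => rw [pow_succ, ← mul_assoc, ih, mul_assoc, e1, ← mul_assoc, ← pow_succ]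
      have e3 : diagonal (fun l => DD φ c l u) ^ n = (1 : Matrix (Fin n) (Fin n) k) := by
        rw [Matrix.diagonal_pow, ← Matrix.diagonal_one]
        congr 1
        funext l
        show DD φ c l u ^ n = 1
        rw [hw l u hu]
        simp [hw0]
      apply cancel_left hc
      rw [e2, e3, one_mul, mul_one]
    obtain ⟨z, hz, e4⟩ := h.pow (th u) n
    rw [h1, mul_one] at e4
    have h2 : th u ^ n ∈ Subgroup.center (Matrix.SpecialLinearGroup (Fin m) k) := by
      rw [← h.cen, e4]; exact hz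
    rw [← th_pow u hu, th_center_iff hm0 _ hun] at h2
    have h3 := h2 ⟨0, hm0⟩ ⟨1, by omega⟩
    have h4 : u ⟨0, hm0⟩ = 2 := Function.update_self _ _ _
    have h5 : u ⟨1, by omega⟩ = 1 := Function.update_of_ne (Ne.symm hne01) _ _
    rw [Pi.pow_apply, Pi.pow_apply, h4, h5, one_pow, one_pow, ← pow_mul] at h3
    have h6 : (2 : k) ^ ((n * m : ℕ) : ℤ) = 1 := by rw [zpow_natCast]; exact h3
    have h7 := two_zpow h6
    have : 0 < n * m := Nat.mul_pos hn hm0
    omega
  obtain ⟨l0, i, j, hij⟩ := hnc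
  obtain ⟨h1, h2⟩ := orbit_comb O hO (w l0) (Finset.mem_image.mpr ⟨l0, Finset.mem_univ _, rfl⟩)
    ⟨i, j, hij⟩
  have hcard : O.card ≤ n := by
    have := Finset.card_image_le (s := Finset.univ) (f := w)
    simpa using this
  refine ⟨w, hw, hsum, h1.trans hcard, fun hnm => ?_⟩
  obtain ⟨a, b, hab, i0, he⟩ := h2 (hcard.trans hnm)
  refine ⟨a, b, hab, fun i => ?_⟩
  have h3 : Function.update (fun _ : Fin m => b) i a ∈ O := by
    rw [← update_swap i0 i a b, ← he]
    exact hO _ (Finset.mem_image.mpr ⟨l0, Finset.mem_univ _, rfl⟩) _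
  obtain ⟨l, -, hl⟩ := Finset.mem_image.mp h3
  exact ⟨l, hl⟩

end TorusData

lemma ProjHom.n_pos {k : Type*} [Field k] [CharZero k] {m n : ℕ}
    {φ : Matrix.SpecialLinearGroup (Fin m) k → Matrix.SpecialLinearGroup (Fin n) k}
    (h : ProjHom φ) (hm : 2 ≤ m) : 0 < n := by
  rcases Nat.eq_zero_or_pos n with hn | hn
  · exfalso
    subst hn
    have hne01 : (⟨0, by omega⟩ : Fin m) ≠ ⟨1, by omega⟩ := by
      intro h0
      have := congrArg Fin.val h0
      simp at this
    have h1 := (SpecialLinearGroup.transvection_mem_center_iff hne01 (1 : k)).mp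
      ((h.cen _).mp (by
        rw [Subgroup.mem_center_iff]
        intro g
        exact Subsingleton.elim _ _))
    exact one_ne_zero h1
  · exact hn

theorem ProjHom.le {k : Type*} [Field k] [IsAlgClosed k] [CharZero k] {m n : ℕ}
    {φ : Matrix.SpecialLinearGroup (Fin m) k → Matrix.SpecialLinearGroup (Fin n) k}
    (h : ProjHom φ) (hm : 2 ≤ m) : m ≤ n := by
  have hn := h.n_pos hm
  obtain ⟨c, hc, hoff⟩ := h.exists_diag hn
  obtain ⟨w, -, -, h1, -⟩ := torus_data h c hc hoff hm hn
  exact h1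

end Pool.Agent.Helper14.RG
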