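import Pool.Agent.Helper14.RG.Cls.Torus4

namespace Pool.Agent.Helper14.RG

open Matrix MvPolynomial

section

variable {k : Type*} [Field k] [IsAlgClosed k] [CharZero k] {n : ℕ}
  {φ : Matrix.SpecialLinearGroup (Fin n) k → Matrix.SpecialLinearGroup (Fin n) k}

lemma pow_multiplicative {m : ℕ} (G : (Fin m → k) → k)
    (hmul : ∀ u v : Fin m → k, ∏ i, u i ≠ 0 → ∏ i, v i ≠ 0 → G (u * v) = G u * G v)
    (hone : ∀ u : Fin m → k, ∏ i, u i ≠ 0 → G u ^ n = 1) (hn : 0 < n) (u : Fin m → k)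
    (hu : ∏ i, u i ≠ 0) : G u = 1 := by
  choose v hv using fun i => IsAlgClosed.exists_pow_nat_eq (u i) hn
  have hv' : ∏ i, v i ≠ 0 := by
    rw [prod_ne_iff] at hu ⊢
    intro i h0
    apply hu i
    rw [← hv i, h0, zero_pow hn.ne']
  have hpw : u = v ^ n := by
    funext i
    exact (hv i).symm
  have h1 : G 1 = 1 := by
    have h2 := hmul 1 1 (by simp) (by simp)
    rw [mul_one] at h2
    have h3 : G 1 ≠ 0 := by
      intro h0
      have := hone 1 (by simp)
      rw [h0, zero_pow hn.ne'] at this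
      exact zero_ne_one this
    have h4 : G 1 * 1 = G 1 * G 1 := by rw [mul_one]; exact h2
    exact (mul_left_cancel₀ h3 h4).symm
  have h2 : ∀ N : ℕ, G (v ^ N) = G v ^ N := by
    intro N
    induction N with
    | zero => rw [pow_zero, pow_zero, h1]
    | succ N ih => rw [pow_succ, hmul _ _ (prod_pow_ne hv' N) hv', ih, pow_succ]
  rw [hpw, h2, hone v hv']

/-- roots of unity determine the exponent -/
lemma exp_eq (q n : ℕ) (hq : 0 < q) (hn : 0 < n) (h : ∀ ζ : k, ζ ≠ 0 → (ζ ^ q = 1 ↔ ζ ^ n = 1)) :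
    q = n := by
  have hq' : NeZero (q : k) := ⟨by rw [Nat.cast_ne_zero]; exact hq.ne'⟩
  have hn' : NeZero (n : k) := ⟨by rw [Nat.cast_ne_zero]; exact hn.ne'⟩
  obtain ⟨ζ, hζ⟩ := HasEnoughRootsOfUnity.exists_primitiveRoot k q
  obtain ⟨η, hη⟩ := HasEnoughRootsOfUnity.exists_primitiveRoot k n
  have h1 : q ∣ n := hζ.dvd_of_pow_eq_one n ((h ζ (hζ.ne_zero hq.ne')).mp hζ.pow_eq_one)
  have h2 : n ∣ q := hη.dvd_of_pow_eq_one q ((h η (hη.ne_zero hn.ne')).mpr hη.pow_eq_one)
  exact Nat.dvd_antisymm h1 h2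

theorem torus_main (h : ProjHom φ) (hn2 : 2 ≤ n) :
    ∃ (ε : Bool) (c : Matrix (Fin n) (Fin n) k), c.det ≠ 0 ∧ ∀ u : Fin n → k, ∏ i, u i ≠ 0 →
      ∃ r : k, c * (φ (th u) : Matrix (Fin n) (Fin n) k)
        = r • (diagonal (fun i => if ε then (u i ^ n / ∏ j, u j)⁻¹ else u i ^ n / ∏ j, u j) * c) := by
  have hn : 0 < n := by omega
  obtain ⟨c, hc, hoff⟩ := h.exists_diag hn
  obtain ⟨w, hw, hsum, -, hform⟩ := torus_data h c hc hoff hn2 hn
  obtain ⟨a, b, hab, hv⟩ := hform le_rfl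
  choose ψ hψ using hv
  have hψi : Function.Injective ψ := by
    intro i j hij
    have h1 := hψ i
    rw [hij, hψ j] at h1
    exact (update_inj hab h1).symm
  let e : Fin n ≃ Fin n := Equiv.ofBijective ψ (Finite.injective_iff_bijective.mp hψi)
  have he : ∀ i, e i = ψ i := fun i => rfl
  have hab0 : a + ((n : ℤ) - 1) * b = 0 := by
    have h1 := hsum (ψ ⟨0, hn⟩)
    rw [hψ, ← Finset.add_sum_erase _ _ (Finset.mem_univ (⟨0, hn⟩ : Fin n)),
      Function.update_self] at h1
    have h2 : ∑ x ∈ Finset.univ.erase (⟨0, hn⟩ : Fin n),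
        Function.update (fun _ : Fin n => b) ⟨0, hn⟩ a x = ((n : ℤ) - 1) * b := by
      rw [Finset.sum_congr rfl (fun x hx => Function.update_of_ne (Finset.ne_of_mem_erase hx) _ _),
        Finset.sum_const, Finset.card_erase_of_mem (Finset.mem_univ _), Finset.card_univ,
        Fintype.card_fin, nsmul_eq_mul, Nat.cast_sub (by omega)]
      simp
    rw [h2] at h1
    exact h1
  -- the `n`-th powers
  have hDn : ∀ (i : Fin n) (u : Fin n → k), ∏ j, u j ≠ 0 →
      DD φ c (ψ i) u ^ n = (∏ j, u j ^ b) * u i ^ ((n : ℤ) * (-b)) := by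
    intro i u hu
    have hui := prod_ne_iff.mp hu
    rw [hw _ u hu, hψ, ← Finset.mul_prod_erase _ _ (Finset.mem_univ i), Function.update_self,
      ← Finset.mul_prod_erase Finset.univ (fun j => u j ^ b) (Finset.mem_univ i)]
    have h1 : ∏ x ∈ Finset.univ.erase i, u x ^ Function.update (fun _ : Fin n => b) i a x
        = ∏ x ∈ Finset.univ.erase i, u x ^ b :=
      Finset.prod_congr rfl (fun x hx => by rw [Function.update_of_ne (Finset.ne_of_mem_erase hx)])
    rw [h1]
    have h2 : u i ^ a = u i ^ b * u i ^ ((n : ℤ) * (-b)) := by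
      rw [← zpow_add₀ (hui i)]
      congr 1
      linarith
    rw [h2]
    ring
  generalize hκ : -b = κ at hDn
  -- the ratios
  have hratio : ∀ (i j : Fin n) (u : Fin n → k), ∏ j, u j ≠ 0 →
      DD φ c (ψ i) u * u j ^ κ = DD φ c (ψ j) u * u i ^ κ := by
    intro i j u hu
    have hD := fun (u : Fin n → k) (hu : ∏ j, u j ≠ 0) (l : Fin n) => DD_ne c hc hoff u hu l
    have key := pow_multiplicative (n := n)
      (fun u => (DD φ c (ψ i) u * u j ^ κ) / (DD φ c (ψ j) u * u i ^ κ)) ?_ ?_ hn u hu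
    · have hui := prod_ne_iff.mp hu
      have h1 : DD φ c (ψ j) u * u i ^ κ ≠ 0 :=
        mul_ne_zero (hD u hu _) (zpow_ne_zero _ (hui i))
      exact (div_eq_one_iff_eq h1).mp key
    · intro u v hu hv
      obtain ⟨r, hr, hr2⟩ := DD_mul h c hc hoff u v hu hv
      have hr0 : r ≠ 0 := by
        rintro rfl
        rw [zero_pow hn.ne'] at hr
        exact zero_ne_one hr
      have hui := prod_ne_iff.mp hu
      have hvi := prod_ne_iff.mp hv
      have e1 := hD u hu (ψ j)
      have e2 := hD v hv (ψ j)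
      have e3 := zpow_ne_zero κ (hui i)
      have e4 := zpow_ne_zero κ (hvi i)
      show (DD φ c (ψ i) (u * v) * (u * v) j ^ κ) / (DD φ c (ψ j) (u * v) * (u * v) i ^ κ)
        = (DD φ c (ψ i) u * u j ^ κ) / (DD φ c (ψ j) u * u i ^ κ)
          * ((DD φ c (ψ i) v * v j ^ κ) / (DD φ c (ψ j) v * v i ^ κ))
      rw [hr2, hr2, Pi.mul_apply, Pi.mul_apply, mul_zpow, mul_zpow]
      field_simp
    · intro u hu
      have hui := prod_ne_iff.mp hu
      show ((DD φ c (ψ i) u * u j ^ κ) / (DD φ c (ψ j) u * u i ^ κ)) ^ n = 1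
      rw [div_pow, mul_pow, mul_pow, hDn i u hu, hDn j u hu]
      have e1 : ∀ x : k, (x ^ κ) ^ n = x ^ ((n : ℤ) * κ) := by
        intro x
        rw [← zpow_natCast, ← _root_.zpow_mul, mul_comm]
      rw [e1, e1]
      have e2 : (∏ j, u j ^ b) ≠ 0 := Finset.prod_ne_zero_iff.mpr fun j _ => zpow_ne_zero _ (hui j)
      have e3 := zpow_ne_zero ((n : ℤ) * κ) (hui i)
      have e4 := zpow_ne_zero ((n : ℤ) * κ) (hui j)
      field_simp
  -- comparison of the kernels
  have hne01 : (⟨0, hn⟩ : Fin n) ≠ ⟨1, by omega⟩ := by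
    intro h0
    have := congrArg Fin.val h0
    simp at this
  have hker : ∀ ζ : k, ζ ≠ 0 → (ζ ^ κ = 1 ↔ ζ ^ n = 1) := by
    intro ζ hζ
    let u : Fin n → k := Function.update 1 ⟨0, hn⟩ ζ
    have hu : ∏ i, u i ≠ 0 := by rw [prod_update]; exact hζ
    have hu0 : u ⟨0, hn⟩ = ζ := Function.update_self _ _ _
    have huj : ∀ j, j ≠ ⟨0, hn⟩ → u j = 1 := fun j hj => Function.update_of_ne hj _ _
    have h1 : th u ∈ Subgroup.center (Matrix.SpecialLinearGroup (Fin n) k) ↔ ζ ^ n = 1 := by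
      rw [th_center_iff hn u hu]
      constructor
      · intro h2
        have := h2 ⟨0, hn⟩ ⟨1, by omega⟩
        rw [hu0, huj _ (Ne.symm hne01), one_pow] at this
        exact this
      · intro h2
        have : ∀ i, u i ^ n = 1 := by
          intro i
          by_cases hi : i = ⟨0, hn⟩
          · rw [hi, hu0, h2]
          · rw [huj i hi, one_pow]
        intro i j
        rw [this, this]
    rw [← h1, ← h.cen]
    constructor
    · intro h2
      have h3 : ∀ i, u i ^ κ = 1 := by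
        intro i
        by_cases hi : i = ⟨0, hn⟩
        · rw [hi, hu0, h2]
        · rw [huj i hi, _root_.one_zpow]
      have h4 : ∀ l, DD φ c l u = DD φ c (ψ ⟨0, hn⟩) u := by
        intro l
        obtain ⟨i, rfl⟩ := e.surjective l
        have := hratio i ⟨0, hn⟩ u hu
        rw [h3, h3, mul_one, mul_one] at this
        exact this
      exact mem_center_of_scalar (phi_of_DD c hc hoff u hu _ h4)
    · intro h2
      obtain ⟨r, -, hr⟩ := center_scalar h2
      have hcu : IsUnit c.det := isUnit_iff_ne_zero.mpr hc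
      have h3 : ∀ l, DD φ c l u = r := by
        intro l
        unfold DD
        rw [hr, Matrix.mul_smul, mul_one, Matrix.smul_mul, Matrix.mul_nonsing_inv _ hcu,
          Matrix.smul_apply, Matrix.one_apply_eq, smul_eq_mul, mul_one]
      have hr0 : r ≠ 0 := by
        rw [← h3 (ψ ⟨0, hn⟩)]
        exact DD_ne c hc hoff u hu _
      have := hratio ⟨0, hn⟩ ⟨1, by omega⟩ u hu
      rw [h3, h3, hu0, huj _ (Ne.symm hne01), _root_.one_zpow] at this
      exact (mul_left_cancel₀ hr0 this).symm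
  have hκ0 : κ ≠ 0 := by
    intro h0
    have h1 := (hker 2 two_ne_zero).mp (by rw [h0, zpow_zero])
    have h2 : (2 : k) ^ ((n : ℕ) : ℤ) = 1 := by rw [zpow_natCast]; exact h1
    have := two_zpow h2
    omega
  have habs : κ.natAbs = n := by
    apply exp_eq (k := k) _ _ (Int.natAbs_pos.mpr hκ0) hn
    intro ζ hζ
    rw [← hker ζ hζ]
    rcases Int.natAbs_eq κ with h2 | h2
    · conv_rhs => rw [h2]
      rw [zpow_natCast]
    · conv_rhs => rw [h2]
      rw [_root_.zpow_neg, zpow_natCast, inv_eq_one]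
  -- the new basis
  let c' : Matrix (Fin n) (Fin n) k := c.submatrix e id
  have hc' : c'.det ≠ 0 := by
    show (c.submatrix e id).det ≠ 0
    rw [Matrix.det_permute]
    refine mul_ne_zero ?_ hc
    rcases Int.units_eq_one_or (Equiv.Perm.sign e) with h2 | h2 <;> rw [h2] <;> simp
  have hcc : ∀ u : Fin n → k, ∏ i, u i ≠ 0 → c' * (φ (th u) : Matrix (Fin n) (Fin n) k)
      = diagonal (fun i => DD φ c (ψ i) u) * c' := by
    intro u hu
    have hcu : IsUnit c.det := isUnit_iff_ne_zero.mpr hc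
    have h1 : c * (φ (th u) : Matrix (Fin n) (Fin n) k) = diagonal (fun l => DD φ c l u) * c := by
      rw [← DD_diag c hoff u hu, mul_assoc, Matrix.nonsing_inv_mul _ hcu, mul_one]
    ext i j
    have h2 := congrFun (congrFun h1 (e i)) j
    rw [Matrix.diagonal_mul] at h2 ⊢
    rw [Matrix.mul_apply] at h2 ⊢
    exact h2
  refine ⟨decide (κ = -(n : ℤ)), c', hc', fun u hu => ?_⟩
  have hui := prod_ne_iff.mp hu
  rw [hcc u hu]
  by_cases hneg : κ = -(n : ℤ)
  · refine ⟨DD φ c (ψ ⟨0, hn⟩) u * (u ⟨0, hn⟩ ^ n / ∏ j, u j), ?_⟩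
    rw [← Matrix.smul_mul]
    congr 1
    ext i j
    rw [Matrix.smul_apply, Matrix.diagonal_apply, Matrix.diagonal_apply]
    by_cases hij : i = j
    · rw [if_pos hij, if_pos hij, if_pos (decide_eq_true hneg), smul_eq_mul]
      have h1 := hratio i ⟨0, hn⟩ u hu
      rw [hneg, _root_.zpow_neg, _root_.zpow_neg, zpow_natCast, zpow_natCast] at h1
      have e1 := pow_ne_zero n (hui i)
      have e2 := pow_ne_zero n (hui ⟨0, hn⟩)
      field_simp at h1 ⊢
      linear_combination h1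
    · rw [if_neg hij, if_neg hij, smul_zero]
  · have hpos : κ = (n : ℤ) := by
      rcases Int.natAbs_eq κ with h2 | h2
      · rw [h2, habs]
      · exfalso
        apply hneg
        rw [h2, habs]
    refine ⟨DD φ c (ψ ⟨0, hn⟩) u * (u ⟨0, hn⟩ ^ n / ∏ j, u j)⁻¹, ?_⟩
    rw [← Matrix.smul_mul]
    congr 1
    ext i j
    rw [Matrix.smul_apply, Matrix.diagonal_apply, Matrix.diagonal_apply]
    by_cases hij : i = j
    · rw [if_pos hij, if_pos hij, if_neg (by simp [hneg]), smul_eq_mul]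
      have h1 := hratio i ⟨0, hn⟩ u hu
      rw [hpos, zpow_natCast, zpow_natCast] at h1
      have e1 := pow_ne_zero n (hui i)
      have e2 := pow_ne_zero n (hui ⟨0, hn⟩)
      field_simp at h1 ⊢
      linear_combination h1
    · rw [if_neg hij, if_neg hij, smul_zero]

end

end Pool.Agent.Helper14.RG
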