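import Pool.Agent.Helper14.RG.Cls.Torus5

namespace Pool.Agent.Helper14.RG

open Matrix MvPolynomial

/-- Homomorphisms modulo the centres, injective modulo the centres. -/
structure PH {k : Type*} [Field k] {m n : ℕ}
    (φ : Matrix.SpecialLinearGroup (Fin m) k → Matrix.SpecialLinearGroup (Fin n) k) : Prop where
  mul : ∀ x y, ∃ z ∈ Subgroup.center (Matrix.SpecialLinearGroup (Fin n) k),
    φ (x * y) = z * (φ x * φ y)
  cen : ∀ x, φ x ∈ Subgroup.center (Matrix.SpecialLinearGroup (Fin n) k) ↔
    x ∈ Subgroup.center (Matrix.SpecialLinearGroup (Fin m) k)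

lemma ProjHom.toPH {k : Type*} [Field k] {m n : ℕ}
    {φ : Matrix.SpecialLinearGroup (Fin m) k → Matrix.SpecialLinearGroup (Fin n) k}
    (h : ProjHom φ) : PH φ := ⟨h.mul, h.cen⟩

section

variable {k : Type*} [Field k] [IsAlgClosed k] [CharZero k] {n : ℕ}

omit [IsAlgClosed k] [CharZero k] in
lemma th_transv {i j : Fin n} (hij : i ≠ j) (s : k) (u : Fin n → k) (hu : ∏ i, u i ≠ 0) :
    th u * SpecialLinearGroup.transvection hij s
      = SpecialLinearGroup.transvection hij ((u i ^ n / u j ^ n) * s) * th u := by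
  have hui := prod_ne_iff.mp hu
  apply Subtype.ext
  show ((th u * SpecialLinearGroup.transvection hij s : Matrix.SpecialLinearGroup (Fin n) k) :
    Matrix (Fin n) (Fin n) k) = ((SpecialLinearGroup.transvection hij ((u i ^ n / u j ^ n) * s)
      * th u : Matrix.SpecialLinearGroup (Fin n) k) : Matrix (Fin n) (Fin n) k)
  rw [Matrix.SpecialLinearGroup.coe_mul, Matrix.SpecialLinearGroup.coe_mul,
    SpecialLinearGroup.transvection_coe, SpecialLinearGroup.transvection_coe,
    th_coe u hu, mul_add, add_mul, mul_one, one_mul]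
  congr 1
  ext a b
  rw [Matrix.diagonal_mul, Matrix.mul_diagonal, Matrix.single_apply, Matrix.single_apply]
  by_cases h : i = a ∧ j = b
  · rw [if_pos h, if_pos h, ← h.1, ← h.2]
    have e1 := pow_ne_zero n (hui j)
    field_simp
  · rw [if_neg h, if_neg h, mul_zero, zero_mul]

variable {φ : Matrix.SpecialLinearGroup (Fin n) k → Matrix.SpecialLinearGroup (Fin n) k}
  (h : PH φ)
  (hN : ∀ u : Fin n → k, ∏ i, u i ≠ 0 →
    ∃ z ∈ Subgroup.center (Matrix.SpecialLinearGroup (Fin n) k), φ (th u) = z * th u)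

omit [IsAlgClosed k] [CharZero k] in
include h hN in
lemma phi_rel {x y : Matrix.SpecialLinearGroup (Fin n) k} (u : Fin n → k) (hu : ∏ i, u i ≠ 0)
    (hxy : th u * x = y * th u) :
    ∃ z ∈ Subgroup.center (Matrix.SpecialLinearGroup (Fin n) k), th u * φ x = z * (φ y * th u) := by
  obtain ⟨z0, hz0, e0⟩ := hN u hu
  obtain ⟨z1, hz1, e1⟩ := h.mul (th u) x
  obtain ⟨z2, hz2, e2⟩ := h.mul y (th u)
  rw [hxy, e2, e0] at e1
  refine ⟨z0⁻¹ * z1⁻¹ * (z2 * z0), mul_mem (mul_mem (inv_mem hz0) (inv_mem hz1))
    (mul_mem hz2 hz0), ?_⟩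
  have c0 := Subgroup.mem_center_iff.mp hz0
  have e3 : φ y * (z0 * th u) = z0 * (φ y * th u) := by rw [← mul_assoc, c0, mul_assoc]
  rw [e3] at e1
  calc th u * φ x = z0⁻¹ * z1⁻¹ * (z1 * (z0 * th u * φ x)) := by group
    _ = z0⁻¹ * z1⁻¹ * (z2 * (z0 * (φ y * th u))) := by rw [e1]
    _ = _ := by simp only [mul_assoc]

include h hN in
/-- the image of a transvection has the expected shape -/
lemma shape {i j : Fin n} (hij : i ≠ j) (l r : Fin n) (hlr : l ≠ r)
    (hne : ¬ ((l = i ∨ l = j) ∧ (r = i ∨ r = j))) :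
    (φ (SpecialLinearGroup.transvection hij (1 : k)) : Matrix (Fin n) (Fin n) k) l r = 0 := by
  have hn : 0 < n := lt_of_le_of_lt (Nat.zero_le _) i.isLt
  -- an index outside `{i, j}`
  obtain ⟨a, ha1, ha2, ha3⟩ : ∃ a, a ≠ i ∧ a ≠ j ∧ (a = l ∨ a = r) := by
    by_cases hl : l = i ∨ l = j
    · have hr : ¬ (r = i ∨ r = j) := fun hr => hne ⟨hl, hr⟩
      push Not at hr
      exact ⟨r, hr.1, hr.2, Or.inr rfl⟩
    · push Not at hl
      exact ⟨l, hl.1, hl.2, Or.inl rfl⟩
  obtain ⟨q, hq⟩ := IsAlgClosed.exists_pow_nat_eq (2 : k) hn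
  have hq0 : q ≠ 0 := by
    rintro rfl
    rw [zero_pow hn.ne'] at hq
    exact two_ne_zero hq.symm
  let v : Fin n → k := Function.update 1 a q
  have hv : ∏ i, v i ≠ 0 := by rw [prod_update]; exact hq0
  have hva : v a = q := Function.update_self _ _ _
  have hvb : ∀ b, b ≠ a → v b = 1 := fun b hb => Function.update_of_ne hb _ _
  have hcm : th v * SpecialLinearGroup.transvection hij (1 : k)
      = SpecialLinearGroup.transvection hij (1 : k) * th v := by
    have := th_transv hij (1 : k) v hv
    rw [hvb i ha1.symm, hvb j ha2.symm, one_pow, div_one, one_mul] at this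
    exact this
  obtain ⟨z, hz, e1⟩ := phi_rel h hN v hv hcm
  have e2 := comm_pow hz e1 n
  rw [center_pow hz, one_mul, ← th_pow v hv] at e2
  have hvn := prod_pow_ne hv n
  have e3 := congrArg (fun x : Matrix.SpecialLinearGroup (Fin n) k =>
    (x : Matrix (Fin n) (Fin n) k) l r) e2
  simp only [Matrix.SpecialLinearGroup.coe_mul] at e3
  rw [th_coe _ hvn, Matrix.diagonal_mul, Matrix.mul_diagonal] at e3
  generalize (φ (SpecialLinearGroup.transvection hij (1 : k)) : Matrix (Fin n) (Fin n) k) l r = y
    at e3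
  have hpa : (v ^ n) a ^ n = 2 ^ n := by rw [Pi.pow_apply, hva, hq]
  have hpb : ∀ b, b ≠ a → (v ^ n) b ^ n = 1 := fun b hb => by
    rw [Pi.pow_apply, hvb b hb, one_pow, one_pow]
  have h2n : (2 : k) ^ n ≠ 1 := by
    intro h0
    have h1 : (2 : k) ^ ((n : ℕ) : ℤ) = 1 := by rw [zpow_natCast]; exact h0
    have := two_zpow h1
    omega
  have h3 : ((2 : k) ^ n - 1) * y = 0 := by
    rcases ha3 with rfl | rfl
    · rw [hpa, hpb r (Ne.symm hlr)] at e3
      field_simp at e3
      linear_combination e3
    · rw [hpa, hpb l hlr] at e3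
      field_simp at e3
      linear_combination -e3
  exact (mul_eq_zero.mp h3).resolve_left (sub_ne_zero.mpr h2n)

omit [IsAlgClosed k] in
lemma exists_center_mul {g g' : Matrix.SpecialLinearGroup (Fin n) k} {r : k}
    (hr : (g : Matrix (Fin n) (Fin n) k) = r • (g' : Matrix (Fin n) (Fin n) k)) :
    ∃ z ∈ Subgroup.center (Matrix.SpecialLinearGroup (Fin n) k), g = z * g' := by
  refine ⟨g * g'⁻¹, ?_, by group⟩
  apply mem_center_of_scalar (r := r)
  rw [Matrix.SpecialLinearGroup.coe_mul, hr, Matrix.smul_mul, ← Matrix.SpecialLinearGroup.coe_mul,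
    mul_inv_cancel, Matrix.SpecialLinearGroup.coe_one]

include h hN in
lemma image_one {i j : Fin n} (hij : i ≠ j) : ∃ p : k, p ≠ 0 ∧
    ∃ z ∈ Subgroup.center (Matrix.SpecialLinearGroup (Fin n) k),
      φ (SpecialLinearGroup.transvection hij (1 : k))
        = z * SpecialLinearGroup.transvection hij p := by
  have hn : 0 < n := lt_of_le_of_lt (Nat.zero_le _) i.isLt
  obtain ⟨q0, hq0⟩ := IsAlgClosed.exists_pow_nat_eq (2 : k) hn
  have hq0' : q0 ≠ 0 := by
    rintro rfl
    rw [zero_pow hn.ne'] at hq0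
    exact two_ne_zero hq0.symm
  let u : Fin n → k := Function.update 1 i q0
  have hprod : ∏ i, u i = q0 := prod_update i q0
  have hu : ∏ i, u i ≠ 0 := by rw [hprod]; exact hq0'
  have hui : u i = q0 := Function.update_self _ _ _
  have hub : ∀ b, b ≠ i → u b = 1 := fun b hb => Function.update_of_ne hb _ _
  have hxy : th u * SpecialLinearGroup.transvection hij (1 : k)
      = (SpecialLinearGroup.transvection hij (1 : k) * SpecialLinearGroup.transvection hij (1 : k))
        * th u := by
    rw [th_transv hij (1 : k) u hu, hui, hub j hij.symm, hq0, one_pow, div_one, mul_one,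
      ← SpecialLinearGroup.transvection_add]
    norm_num
  obtain ⟨z, hz, e1⟩ := phi_rel h hN u hu hxy
  obtain ⟨z', hz', e2⟩ := h.mul (SpecialLinearGroup.transvection hij (1 : k))
    (SpecialLinearGroup.transvection hij (1 : k))
  obtain ⟨ρ, hρ, hρ2⟩ := center_scalar (mul_mem hz hz')
  have hρ0 : ρ ≠ 0 := by
    rintro rfl
    rw [zero_pow hn.ne'] at hρ
    exact zero_ne_one hρ
  have hsh := shape h hN hij
  have hcen : φ (SpecialLinearGroup.transvection hij (1 : k)) ∉
      Subgroup.center (Matrix.SpecialLinearGroup (Fin n) k) := by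
    intro h0
    have := (SpecialLinearGroup.transvection_mem_center_iff hij (1 : k)).mp ((h.cen _).mp h0)
    exact one_ne_zero this
  generalize φ (SpecialLinearGroup.transvection hij (1 : k)) = Y at e1 e2 hsh hcen
  rw [e2] at e1
  have e3 : th u * Y = (z * z') * ((Y * Y) * th u) := by rw [e1]; simp only [mul_assoc]
  have e4 : ∀ l r, (if l = i then (2 : k) else 1) * (Y : Matrix (Fin n) (Fin n) k) l r
      = ρ * ((∑ s, (Y : Matrix (Fin n) (Fin n) k) l s * (Y : Matrix (Fin n) (Fin n) k) s r)
        * (if r = i then (2 : k) else 1)) := by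
    intro l r
    have e5 := congrArg (fun x : Matrix.SpecialLinearGroup (Fin n) k =>
      (x : Matrix (Fin n) (Fin n) k) l r) e3
    simp only [Matrix.SpecialLinearGroup.coe_mul _ _] at e5
    rw [← Matrix.SpecialLinearGroup.coe_mul z z', hρ2, Matrix.smul_mul, one_mul,
      Matrix.smul_apply, th_coe _ hu, Matrix.diagonal_mul, Matrix.mul_diagonal, Matrix.mul_apply,
      hprod, smul_eq_mul] at e5
    have hub' : ∀ b, u b ^ n = if b = i then (2 : k) else 1 := by
      intro b
      by_cases hb : b = i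
      · rw [if_pos hb, hb, hui, hq0]
      · rw [if_neg hb, hub b hb, one_pow]
    rw [hub', hub'] at e5
    field_simp at e5
    linear_combination e5
  -- sums over rows supported on `{i, j}`
  have hrow : ∀ (l : Fin n) (r : Fin n), (l = i ∨ l = j) →
      ∑ s, (Y : Matrix (Fin n) (Fin n) k) l s * (Y : Matrix (Fin n) (Fin n) k) s r
        = (Y : Matrix (Fin n) (Fin n) k) l i * (Y : Matrix (Fin n) (Fin n) k) i r
          + (Y : Matrix (Fin n) (Fin n) k) l j * (Y : Matrix (Fin n) (Fin n) k) j r := by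
    intro l r hl
    rw [← Finset.sum_subset (Finset.subset_univ {i, j}), Finset.sum_pair hij]
    intro s _ hs
    rw [hsh l s, zero_mul]
    · rintro rfl
      apply hs
      rcases hl with h1 | h1 <;> simp [h1]
    · rintro ⟨-, h1⟩
      apply hs
      rcases h1 with h1 | h1 <;> simp [h1]
  have hrow' : ∀ l : Fin n, l ≠ i → l ≠ j → (Y : Matrix (Fin n) (Fin n) k) l l
      = ρ * ((Y : Matrix (Fin n) (Fin n) k) l l * (Y : Matrix (Fin n) (Fin n) k) l l) := by
    intro l hli hlj
    have e5 := e4 l l
    rw [if_neg hli, one_mul, mul_one, Finset.sum_eq_single l] at e5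
    · exact e5
    · intro s _ hs
      rw [hsh l s (Ne.symm hs), zero_mul]
      rintro ⟨h1, -⟩
      rcases h1 with h1 | h1
      · exact hli h1
      · exact hlj h1
    · intro hh; exact absurd (Finset.mem_univ _) hh
  have hYdet : (Y : Matrix (Fin n) (Fin n) k).det ≠ 0 := by rw [Y.2]; exact one_ne_zero
  have hdiag : ∀ l : Fin n, l ≠ i → l ≠ j → (Y : Matrix (Fin n) (Fin n) k) l l = ρ⁻¹ := by
    intro l hli hlj
    have e5 := hrow' l hli hlj
    have e6 : (Y : Matrix (Fin n) (Fin n) k) l l ≠ 0 := by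
      intro h0
      apply hYdet
      apply Matrix.det_eq_zero_of_row_eq_zero l
      intro s
      by_cases hs : s = l
      · rw [hs, h0]
      · apply hsh l s (Ne.symm hs)
        rintro ⟨h1, -⟩
        rcases h1 with h1 | h1
        · exact hli h1
        · exact hlj h1
    apply eq_inv_of_mul_eq_one_left
    have e7 : (Y : Matrix (Fin n) (Fin n) k) l l * ((Y : Matrix (Fin n) (Fin n) k) l l * ρ)
        = (Y : Matrix (Fin n) (Fin n) k) l l * 1 := by linear_combination -e5
    exact mul_left_cancel₀ e6 e7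
  have eii := e4 i i
  have eij := e4 i j
  have eji := e4 j i
  have ejj := e4 j j
  rw [hrow i _ (Or.inl rfl)] at eii eij
  rw [hrow j _ (Or.inr rfl)] at eji ejj
  rw [if_pos rfl] at eii eij eji
  rw [if_neg hij.symm] at eij eji ejj
  -- conclusion from the values of the entries
  have hfin : ∀ (hα : ρ * (Y : Matrix (Fin n) (Fin n) k) i i = 1)
      (hβ : ρ * (Y : Matrix (Fin n) (Fin n) k) j j = 1)
      (hq : (Y : Matrix (Fin n) (Fin n) k) j i = 0),
      (Y : Matrix (Fin n) (Fin n) k) = ρ⁻¹ • ((SpecialLinearGroup.transvection hij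
        (ρ * (Y : Matrix (Fin n) (Fin n) k) i j) : Matrix.SpecialLinearGroup (Fin n) k) :
          Matrix (Fin n) (Fin n) k) := by
    intro hα hβ hq
    rw [SpecialLinearGroup.transvection_coe]
    ext l r
    rw [Matrix.smul_apply, Matrix.add_apply, Matrix.one_apply, Matrix.single_apply, smul_eq_mul]
    by_cases hlr : l = r
    · subst hlr
      have hns : ¬ (i = l ∧ j = l) := by
        rintro ⟨h1, h2⟩
        exact hij (h1.trans h2.symm)
      rw [if_pos rfl, if_neg hns, add_zero, mul_one]
      by_cases hli : l = i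
      · rw [hli]; exact eq_inv_of_mul_eq_one_right hα
      · by_cases hlj : l = j
        · rw [hlj]; exact eq_inv_of_mul_eq_one_right hβ
        · exact hdiag l hli hlj
    · rw [if_neg hlr, zero_add]
      by_cases h1 : i = l ∧ j = r
      · rw [if_pos h1, ← h1.1, ← h1.2, inv_mul_cancel_left₀ hρ0]
      · rw [if_neg h1, mul_zero]
        by_cases h2 : (l = i ∨ l = j) ∧ (r = i ∨ r = j)
        · rcases h2 with ⟨h3 | h3, h4 | h4⟩
          · exact absurd (h3.trans h4.symm) hlr
          · exact absurd ⟨h3.symm, h4.symm⟩ h1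
          · rw [h3, h4]; exact hq
          · exact absurd (h3.trans h4.symm) hlr
        · exact hsh l r hlr h2
  by_cases hp : (Y : Matrix (Fin n) (Fin n) k) i j = 0
  · exfalso
    have hYii : (Y : Matrix (Fin n) (Fin n) k) i i ≠ 0 := by
      intro h0
      apply hYdet
      apply Matrix.det_eq_zero_of_row_eq_zero i
      intro s
      by_cases hs : s = i
      · rw [hs, h0]
      · by_cases hsj : s = j
        · rw [hsj, hp]
        · apply hsh i s (Ne.symm hs)
          rintro ⟨-, h1⟩
          rcases h1 with h1 | h1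
          · exact hs h1
          · exact hsj h1
    have hYjj : (Y : Matrix (Fin n) (Fin n) k) j j ≠ 0 := by
      intro h0
      apply hYdet
      apply Matrix.det_eq_zero_of_column_eq_zero j
      intro s
      by_cases hs : s = j
      · rw [hs, h0]
      · by_cases hsi : s = i
        · rw [hsi, hp]
        · apply hsh s j hs
          rintro ⟨h1, -⟩
          rcases h1 with h1 | h1
          · exact hsi h1
          · exact hs h1
    rw [hp] at eii ejj
    have hα : ρ * (Y : Matrix (Fin n) (Fin n) k) i i = 1 := by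
      apply mul_left_cancel₀ hYii
      linear_combination -(1 / 2 : k) * eii
    have hβ : ρ * (Y : Matrix (Fin n) (Fin n) k) j j = 1 := by
      apply mul_left_cancel₀ hYjj
      linear_combination -ejj
    have hq : (Y : Matrix (Fin n) (Fin n) k) j i = 0 := by
      have e5 : (Y : Matrix (Fin n) (Fin n) k) j i * 3 = 0 := by
        have e6 : (Y : Matrix (Fin n) (Fin n) k) j i * (2 * (ρ * (Y : Matrix (Fin n) (Fin n) k) i i)
          + 2 * (ρ * (Y : Matrix (Fin n) (Fin n) k) j j) - 1) = 0 := by linear_combination -eji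
        rw [hα, hβ] at e6
        linear_combination e6
      exact (mul_eq_zero.mp e5).resolve_right three_ne_zero
    have e7 := hfin hα hβ hq
    rw [hp, mul_zero, SpecialLinearGroup.transvection_coeff_zero,
      Matrix.SpecialLinearGroup.coe_one] at e7
    exact hcen (mem_center_of_scalar e7)
  · have hs : ρ * (Y : Matrix (Fin n) (Fin n) k) i i + ρ * (Y : Matrix (Fin n) (Fin n) k) j j = 2 := by
      apply mul_left_cancel₀ hp
      linear_combination -eij
    have hq : (Y : Matrix (Fin n) (Fin n) k) j i = 0 := by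
      have e5 : (Y : Matrix (Fin n) (Fin n) k) j i * 3 = 0 := by
        have e6 : (Y : Matrix (Fin n) (Fin n) k) j i * (2 * (ρ * (Y : Matrix (Fin n) (Fin n) k) i i
          + ρ * (Y : Matrix (Fin n) (Fin n) k) j j) - 1) = 0 := by linear_combination -eji
        rw [hs] at e6
        linear_combination e6
      exact (mul_eq_zero.mp e5).resolve_right three_ne_zero
    rw [hq] at eii ejj
    have hα' : (ρ * (Y : Matrix (Fin n) (Fin n) k) i i)
        * (ρ * (Y : Matrix (Fin n) (Fin n) k) i i - 1) = 0 := by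
      linear_combination -(ρ / 2) * eii
    have hβ' : (ρ * (Y : Matrix (Fin n) (Fin n) k) j j)
        * (ρ * (Y : Matrix (Fin n) (Fin n) k) j j - 1) = 0 := by
      linear_combination -ρ * ejj
    have hα : ρ * (Y : Matrix (Fin n) (Fin n) k) i i = 1 := by
      rcases mul_eq_zero.mp hα' with h1 | h1
      · exfalso
        rw [h1, zero_add] at hs
        rw [hs] at hβ'
        norm_num at hβ'
      · exact sub_eq_zero.mp h1
    have hβ : ρ * (Y : Matrix (Fin n) (Fin n) k) j j = 1 := by
      rw [hα] at hs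
      linear_combination hs
    exact ⟨ρ * (Y : Matrix (Fin n) (Fin n) k) i j, mul_ne_zero hρ0 hp,
      exists_center_mul (hfin hα hβ hq)⟩

end

end Pool.Agent.Helper14.RG
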